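import Pool.Agent.Helper33.WL.Rep

/-!
# A kernel checker for the congruence lattices of finite unary algebras

Points are the numbers below `n`. A table `T : ℕ` codes the function `i ↦ tb T i` (base 2^16). An
algebra is given by the tables `fs` of its operations, its congruences by the tables `ps` of their
root functions. `chk` verifies that the congruences are exactly the `ps`, ordered as the Boolean
matrix `b` says.
-/

set_option autoImplicit false

namespace Pool.Agent.Helper71.SL

open Pool.Agent.H33WL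

/-- table lookup -/
def tb (T i : ℕ) : ℕ := Nat.land (Nat.shiftRight T (Nat.mul 16 i)) 65535

/-- bounded conjunction -/
def allN : ℕ → (ℕ → Bool) → Bool
  | 0, _ => true
  | n + 1, p => cond (p n) (allN n p) false

theorem allN_iff (n : ℕ) (p : ℕ → Bool) : allN n p = true ↔ ∀ i < n, p i = true := by
  induction n with
  | zero => simp [allN]
  | succ n ih =>
    simp only [allN]
    cases h : p n
    · simp only [cond_false, Bool.false_eq_true, false_iff, not_forall]
      exact ⟨n, Nat.lt_succ_self n, by simp [h]⟩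
    · simp only [cond_true, ih]
      constructor
      · intro h1 i hi
        rcases Nat.lt_succ_iff_lt_or_eq.1 hi with h2 | rfl
        · exact h1 i h2
        · exact h
      · intro h1 i hi
        exact h1 i (Nat.lt_succ_of_lt hi)

/-- labels as lists -/
def getL : List ℕ → ℕ → ℕ
  | [], _ => 0
  | x :: _, 0 => x
  | _ :: l, i + 1 => getL l i

def relL (a b : ℕ) : List ℕ → List ℕ
  | [] => []
  | x :: l => cond (Nat.beq x a) b x :: relL a b l

theorem getL_relL (a b : ℕ) (ha : a ≠ 0) (l : List ℕ) (i : ℕ) :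
    getL (relL a b l) i = if getL l i = a then b else getL l i := by
  induction l generalizing i with
  | nil => simp [relL, getL, ha.symm]
  | cons x l ih =>
    cases i with
    | zero =>
      simp only [relL, getL]
      by_cases h : x = a
      · subst h; simp
      · have : Nat.beq x a = false := by
          cases h2 : Nat.beq x a
          · rfl
          · exact absurd (Nat.eq_of_beq_eq_true h2) h
        rw [this, if_neg h]; rfl
    | succ i => simp only [relL, getL]; exact ih i

/-- the images of a pair under the operations, in front of a list of pairs -/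
def imgs (a b : ℕ) (w : List (ℕ × ℕ)) : List ℕ → List (ℕ × ℕ)
  | [] => w
  | f :: fs => imgs a b ((tb f a, tb f b) :: w) fs

theorem mem_imgs (a b : ℕ) (fs : List ℕ) (w : List (ℕ × ℕ)) (q : ℕ × ℕ) (h : q ∈ imgs a b w fs) :
    q ∈ w ∨ ∃ f ∈ fs, q = (tb f a, tb f b) := by
  induction fs generalizing w with
  | nil => exact Or.inl h
  | cons f fs ih =>
    rcases ih _ h with h1 | ⟨g, hg, h2⟩
    · rcases List.mem_cons.1 h1 with rfl | h3
      · exact Or.inr ⟨f, List.mem_cons_self .., rfl⟩
      · exact Or.inl h3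
    · exact Or.inr ⟨g, List.mem_cons_of_mem _ hg, h2⟩

/-- closure of a list of pairs under the operations, as a list of labels (all labels are
positive) -/
def clo (fs : List ℕ) : ℕ → List (ℕ × ℕ) → List ℕ → List ℕ
  | 0, _, l => l
  | _ + 1, [], l => l
  | k + 1, (a, b) :: w, l =>
      cond (Nat.beq (getL l a) (getL l b)) (clo fs k w l)
        (clo fs k (imgs a b w fs) (relL (getL l a) (getL l b) l))

theorem clo_sound {n : ℕ} (fs : List ℕ) (θ : ℕ → ℕ → Prop) (hθ : Equivalence θ)
    (hf : ∀ f ∈ fs, ∀ x < n, tb f x < n)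
    (hc : ∀ f ∈ fs, ∀ x < n, ∀ y < n, θ x y → θ (tb f x) (tb f y)) :
    ∀ (k : ℕ) (w : List (ℕ × ℕ)) (l : List ℕ),
      (∀ q ∈ w, q.1 < n ∧ q.2 < n ∧ θ q.1 q.2) →
      (∀ i < n, getL l i ≠ 0) →
      (∀ i < n, ∀ j < n, getL l i = getL l j → θ i j) →
      ∀ i < n, ∀ j < n, getL (clo fs k w l) i = getL (clo fs k w l) j → θ i j := by
  intro k
  induction k with
  | zero => intro w l _ _ h i hi j hj hij; exact h i hi j hj hij
  | succ k ih =>
    intro w l hw hp h
    cases w with
    | nil => exact h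
    | cons q w =>
      obtain ⟨a, b⟩ := q
      obtain ⟨ha, hb, hab⟩ := hw (a, b) (List.mem_cons_self ..)
      simp only at ha hb hab
      simp only [clo]
      cases hq : Nat.beq (getL l a) (getL l b)
      · simp only [cond_false]
        apply ih
        · intro q hq'
          rcases mem_imgs _ _ _ _ _ hq' with h1 | ⟨f, hf', rfl⟩
          · exact hw q (List.mem_cons_of_mem _ h1)
          · exact ⟨hf f hf' a ha, hf f hf' b hb, hc f hf' a ha b hb hab⟩
        · intro i hi
          rw [getL_relL _ _ (hp a ha)]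
          split_ifs
          · exact hp b hb
          · exact hp i hi
        · intro i hi j hj hij
          rw [getL_relL _ _ (hp a ha), getL_relL _ _ (hp a ha)] at hij
          split_ifs at hij with h1 h2 h2
          · exact hθ.trans (h i hi a ha h1) (h a ha j hj h2.symm)
          · exact hθ.trans (h i hi a ha h1) (hθ.trans hab (h b hb j hj hij))
          · exact hθ.trans (h i hi b hb hij) (hθ.trans (hθ.symm hab) (h a ha j hj h2.symm))
          · exact h i hi j hj hij
      · simp only [cond_true]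
        exact ih w l (fun q hq' => hw q (List.mem_cons_of_mem _ hq')) hp h

/-- the labels `1, ..., n` -/
def idL : ℕ → ℕ → List ℕ
  | 0, _ => []
  | n + 1, i => (i + 1) :: idL n (i + 1)

theorem getL_idL (n s i : ℕ) (hi : i < n) : getL (idL n s) i = s + i + 1 := by
  induction n generalizing s i with
  | zero => omega
  | succ n ih =>
    cases i with
    | zero => simp [idL, getL]
    | succ i =>
      simp only [idL, getL]
      rw [ih (s + 1) i (by omega)]
      omega

/-- The order on `Fin k` given by a Boolean matrix. -/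
def FinB {k : ℕ} (_ : Fin k → Fin k → Bool) : Type := Fin k

instance {k : ℕ} (b : Fin k → Fin k → Bool) : LE (FinB b) := ⟨fun i j => b i j = true⟩

/-- the list of the pairs `(i, p i)`, `i < n`, in front of `w` -/
def prs (p : ℕ) (w : List (ℕ × ℕ)) : ℕ → List (ℕ × ℕ)
  | 0 => w
  | n + 1 => prs p ((n, tb p n) :: w) n

theorem mem_prs (p : ℕ) (w : List (ℕ × ℕ)) (n : ℕ) (q : ℕ × ℕ) (h : q ∈ prs p w n) :
    q ∈ w ∨ ∃ i < n, q = (i, tb p i) := by
  induction n generalizing w with
  | zero => exact Or.inl h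
  | succ n ih =>
    rcases ih _ h with h1 | ⟨i, hi, h2⟩
    · rcases List.mem_cons.1 h1 with rfl | h3
      · exact Or.inr ⟨n, Nat.lt_succ_self n, rfl⟩
      · exact Or.inl h3
    · exact Or.inr ⟨i, Nat.lt_succ_of_lt hi, h2⟩

/-- conjunction over a list -/
def allL {α : Type} (p : α → Bool) : List α → Bool
  | [] => true
  | x :: l => cond (p x) (allL p l) false

theorem allL_iff {α : Type} (p : α → Bool) (l : List α) :
    allL p l = true ↔ ∀ x ∈ l, p x = true := by
  induction l with
  | nil => simp [allL]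
  | cons x l ih =>
    simp only [allL]
    cases h : p x
    · simp [h]
    · simp [h, ih]

/-- disjunction over a list -/
def anyL {α : Type} (p : α → Bool) : List α → Bool
  | [] => false
  | x :: l => cond (p x) true (anyL p l)

theorem anyL_iff {α : Type} (p : α → Bool) (l : List α) :
    anyL p l = true ↔ ∃ x ∈ l, p x = true := by
  induction l with
  | nil => simp [anyL]
  | cons x l ih =>
    simp only [anyL]
    cases h : p x
    · simp [h, ih]
    · simp [h]

/-- the labels `l` are constant on the blocks of `p` -/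
def cover (n p : ℕ) (l : List ℕ) : Bool := allN n fun i => Nat.beq (getL l i) (getL l (tb p i))

/-- the block root function `p` is below the block root function `q` -/
def lep (n p q : ℕ) : Bool := allN n fun i => Nat.beq (tb q i) (tb q (tb p i))

/-- basic conditions: the operations and the root functions are functions, and the operations are
compatible with the root functions -/
def chkB (n : ℕ) (fs ps : List ℕ) : Bool :=
  cond (allL (fun f => allN n fun i => Nat.blt (tb f i) n) fs)
    (cond (allL (fun p => allN n fun i => cond (Nat.blt (tb p i) n)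
      (Nat.beq (tb p (tb p i)) (tb p i)) false) ps)
      (allL (fun f => allL (fun p => allN n fun i =>
        Nat.beq (tb p (tb f i)) (tb p (tb f (tb p i)))) ps) fs) false) false

/-- joins -/
def chkJ (n fuel : ℕ) (ps : List ℕ) : Bool :=
  allL (fun p => allL (fun q =>
    let l := clo [] fuel (prs p (prs q [] n) n) (idL n 0)
    anyL (fun r => cond (cover n r l) (cond (lep n p r) (lep n q r) false) false) ps) ps) ps

/-- the congruence generated by a pair -/
def chkP (n fuel : ℕ) (fs ps : List ℕ) (q : ℕ × ℕ) : Bool :=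
  let l := clo fs fuel [q] (idL n 0)
  anyL (fun r => cond (Nat.beq (tb r q.1) (tb r q.2)) (cover n r l) false) ps

/-- the order matrix -/
def chkO (n : ℕ) (ps : List ℕ) {k : ℕ} (b : Fin k → Fin k → Bool) : Prop :=
  ∃ h : ps.length = k, ∀ s t : Fin k, b s t = lep n (ps.get (s.cast h.symm)) (ps.get (t.cast h.symm))

/-- The check for a general unary algebra: all pairs. -/
def chkAll (n fuel : ℕ) (fs ps : List ℕ) : Bool :=
  allN n fun x => allN x fun y => chkP n fuel fs ps (x, y)

/-- The check for a transitive permutation group with additional operations: `nx x` is the index of an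
operation taking `x` to a smaller point (in the order of the list of the visited points); all
operations in `gs` are permutations, with their inverses in `hs`. -/
def chkTr (n fuel : ℕ) (fs ps : List ℕ) (gh : List (ℕ × ℕ)) (ord : List (ℕ × ℕ)) : Bool :=
  cond (allL (fun gh => allN n fun i => cond (Nat.beq (tb gh.2 (tb gh.1 i)) i)
      (cond (Nat.blt (tb gh.2 i) n) (allL (fun p =>
        Nat.beq (tb p (tb gh.2 i)) (tb p (tb gh.2 (tb p i)))) ps) false) false) gh)
    (cond (allL (fun gh => anyL (fun f => Nat.beq f gh.1) fs) gh)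
      (cond (tree gh [0] ord n) (allN n fun x => chkP n fuel fs ps (0, x)) false) false) false
where
  /-- all points below `n` are reached: `ord` is a list of pairs `(x, g)` such that `g x` is
  already known -/
  tree (gh : List (ℕ × ℕ)) (known : List ℕ) : List (ℕ × ℕ) → ℕ → Bool
    | [], n => allN n fun x => anyL (fun y => Nat.beq x y) known
    | (x, g) :: ord, n => cond (anyL (fun q => Nat.beq q.1 g) gh)
        (cond (anyL (fun y => Nat.beq (tb g x) y) known) (tree gh (x :: known) ord n) false) false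

/-- The operation of a table. -/
def opf (n f : ℕ) : Fin n → Fin n := fun i => if h : tb f i < n then ⟨tb f i, h⟩ else i

theorem opf_val {n f : ℕ} (h : ∀ i < n, tb f i < n) (i : Fin n) : (opf n f i : ℕ) = tb f i := by
  unfold opf
  rw [dif_pos (h i i.2)]

/-- the set of operations -/
def ops (n : ℕ) (fs : List ℕ) : Set (Fin n → Fin n) := {g | ∃ f ∈ fs, g = opf n f}

/-- the equivalence relation of a root function -/
def rel (n p : ℕ) : Setoid (Fin n) := Setoid.ker fun i => tb p i

theorem rel_iff {n p : ℕ} (i j : Fin n) : (rel n p).r i j ↔ tb p i = tb p j := Iff.rfl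

/-- extension of a relation on `Fin n` to the natural numbers -/
def ext {n : ℕ} (r : Setoid (Fin n)) (x y : ℕ) : Prop :=
  x = y ∨ ∃ (hx : x < n) (hy : y < n), r.r ⟨x, hx⟩ ⟨y, hy⟩

theorem ext_equiv {n : ℕ} (r : Setoid (Fin n)) : Equivalence (ext r) where
  refl _ := Or.inl rfl
  symm := by
    rintro x y (rfl | ⟨hx, hy, h⟩)
    · exact Or.inl rfl
    · exact Or.inr ⟨hy, hx, r.symm h⟩
  trans := by
    rintro x y z (rfl | ⟨hx, hy, h⟩) (rfl | ⟨hy', hz, h'⟩)
    · exact Or.inl rfl
    · exact Or.inr ⟨hy', hz, h'⟩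
    · exact Or.inr ⟨hx, hy, h⟩
    · exact Or.inr ⟨hx, hz, r.trans h h'⟩

theorem ext_iff {n : ℕ} (r : Setoid (Fin n)) (x y : Fin n) : ext r x y ↔ r.r x y := by
  constructor
  · rintro (h | ⟨_, _, h⟩)
    · rw [Fin.ext h]
    · exact h
  · intro h
    exact Or.inr ⟨x.2, y.2, h⟩

section

variable {n : ℕ} {fs ps : List ℕ}

theorem chkB_iff (h : chkB n fs ps = true) :
    (∀ f ∈ fs, ∀ i < n, tb f i < n) ∧
    (∀ p ∈ ps, ∀ i < n, tb p i < n ∧ tb p (tb p i) = tb p i) ∧
    (∀ f ∈ fs, ∀ p ∈ ps, ∀ i < n, tb p (tb f i) = tb p (tb f (tb p i))) := by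
  unfold chkB at h
  have h1 : (allL (fun f => allN n fun i => Nat.blt (tb f i) n) fs) = true := by
    cases h2 : (allL (fun f => allN n fun i => Nat.blt (tb f i) n) fs)
    · rw [h2] at h; simp at h
    · rfl
  rw [h1, cond_true] at h
  have h2 : (allL (fun p => allN n fun i => cond (Nat.blt (tb p i) n)
      (Nat.beq (tb p (tb p i)) (tb p i)) false) ps) = true := by
    cases h2 : (allL (fun p => allN n fun i => cond (Nat.blt (tb p i) n)
      (Nat.beq (tb p (tb p i)) (tb p i)) false) ps)
    · rw [h2] at h; simp at h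
    · rfl
  rw [h2, cond_true] at h
  refine ⟨?_, ?_, ?_⟩
  · intro f hf i hi
    have h3 := (allN_iff _ _).1 ((allL_iff _ _).1 h1 f hf) i hi
    exact Nat.blt_eq.mp h3
  · intro p hp i hi
    have h3 := (allN_iff _ _).1 ((allL_iff _ _).1 h2 p hp) i hi
    cases h4 : Nat.blt (tb p i) n
    · rw [h4] at h3; simp at h3
    · rw [h4, cond_true] at h3
      exact ⟨Nat.blt_eq.mp h4, Nat.eq_of_beq_eq_true h3⟩
  · intro f hf p hp i hi
    have h3 := (allN_iff _ _).1 ((allL_iff _ _).1 ((allL_iff _ _).1 h f hf) p hp) i hi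
    exact Nat.eq_of_beq_eq_true h3

theorem lep_iff (p q : ℕ) (hp : ∀ i < n, tb p i < n ∧ tb p (tb p i) = tb p i) :
    lep n p q = true ↔ rel n p ≤ rel n q := by
  unfold lep
  rw [allN_iff]
  constructor
  · intro h i j hij
    have hi := Nat.eq_of_beq_eq_true (h i i.2)
    have hj := Nat.eq_of_beq_eq_true (h j j.2)
    show tb q i = tb q j
    have hij' : tb p i = tb p j := hij
    rw [hi, hj, hij']
  · intro h i hi
    have h1 : (rel n p).r ⟨i, hi⟩ ⟨tb p i, (hp i hi).1⟩ := (hp i hi).2.symm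
    have h2 : tb q i = tb q (tb p i) := h h1
    rw [h2]
    exact Nat.beq_refl _

theorem cover_sound {p : ℕ} {l : List ℕ} {r : Setoid (Fin n)}
    (hp : ∀ i < n, tb p i < n ∧ tb p (tb p i) = tb p i) (hc : cover n p l = true)
    (hl : ∀ i < n, ∀ j < n, getL l i = getL l j → ext r i j) : rel n p ≤ r := by
  unfold cover at hc
  rw [allN_iff] at hc
  intro i j hij
  have hij' : tb p i = tb p j := hij
  have h1 := hl i i.2 _ (hp i i.2).1 (Nat.eq_of_beq_eq_true (hc i i.2))
  have h2 := hl j j.2 _ (hp j j.2).1 (Nat.eq_of_beq_eq_true (hc j j.2))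
  rw [← hij'] at h2
  exact (ext_iff r i j).1 ((ext_equiv r).trans h1 ((ext_equiv r).symm h2))

theorem idL_pos (n : ℕ) : ∀ i < n, getL (idL n 0) i ≠ 0 := by
  intro i hi
  rw [getL_idL n 0 i hi]
  omega

theorem idL_inj (n : ℕ) (θ : ℕ → ℕ → Prop) (hθ : Equivalence θ) :
    ∀ i < n, ∀ j < n, getL (idL n 0) i = getL (idL n 0) j → θ i j := by
  intro i hi j hj h
  rw [getL_idL n 0 i hi, getL_idL n 0 j hj] at h
  have : i = j := by omega
  rw [this]
  exact hθ.refl _

theorem ext_op {r : Setoid (Fin n)} (hf : ∀ f ∈ fs, ∀ i < n, tb f i < n)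
    (hr : ∀ f ∈ ops n fs, ∀ x y, r.r x y → r.r (f x) (f y)) :
    ∀ f ∈ fs, ∀ x < n, ∀ y < n, ext r x y → ext r (tb f x) (tb f y) := by
  rintro f hf' x hx y hy (rfl | ⟨_, _, h⟩)
  · exact Or.inl rfl
  · have h1 := hr _ ⟨f, hf', rfl⟩ _ _ h
    refine Or.inr ⟨hf f hf' x hx, hf f hf' y hy, ?_⟩
    have e1 : opf n f ⟨x, hx⟩ = ⟨tb f x, hf f hf' x hx⟩ := Fin.ext (opf_val (hf f hf') _)
    have e2 : opf n f ⟨y, hy⟩ = ⟨tb f y, hf f hf' y hy⟩ := Fin.ext (opf_val (hf f hf') _)
    rw [e1, e2] at h1
    exact h1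

theorem chkJ_sound {fuel : ℕ} (hb : ∀ p ∈ ps, ∀ i < n, tb p i < n ∧ tb p (tb p i) = tb p i)
    (h : chkJ n fuel ps = true) (p q : ℕ) (hp : p ∈ ps) (hq : q ∈ ps) :
    ∃ r ∈ ps, rel n p ≤ rel n r ∧ rel n q ≤ rel n r ∧
      ∀ θ : Setoid (Fin n), rel n p ≤ θ → rel n q ≤ θ → rel n r ≤ θ := by
  unfold chkJ at h
  have h1 := (allL_iff _ _).1 ((allL_iff _ _).1 h p hp) q hq
  obtain ⟨r, hr, h2⟩ := (anyL_iff _ _).1 h1
  have h3 : cover n r (clo [] fuel (prs p (prs q [] n) n) (idL n 0)) = true := by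
    cases h4 : cover n r (clo [] fuel (prs p (prs q [] n) n) (idL n 0))
    · rw [h4] at h2; simp at h2
    · rfl
  rw [h3, cond_true] at h2
  have h4 : lep n p r = true := by
    cases h5 : lep n p r
    · rw [h5] at h2; simp at h2
    · rfl
  rw [h4, cond_true] at h2
  refine ⟨r, hr, (lep_iff p r (hb p hp)).1 h4, (lep_iff q r (hb q hq)).1 h2, ?_⟩
  intro θ h5 h6
  refine cover_sound (hb r hr) h3 ?_
  refine clo_sound [] (ext θ) (ext_equiv θ) (by simp) (by simp) fuel _ _ ?_ (idL_pos n)
    (idL_inj n _ (ext_equiv θ))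
  intro x hx
  rcases mem_prs _ _ _ _ hx with h7 | ⟨i, hi, rfl⟩
  · rcases mem_prs _ _ _ _ h7 with h8 | ⟨i, hi, rfl⟩
    · simp at h8
    · refine ⟨hi, (hb q hq i hi).1, Or.inr ⟨hi, (hb q hq i hi).1, h6 ?_⟩⟩
      exact (hb q hq i hi).2.symm
  · refine ⟨hi, (hb p hp i hi).1, Or.inr ⟨hi, (hb p hp i hi).1, h5 ?_⟩⟩
    exact (hb p hp i hi).2.symm

theorem chkP_sound {fuel : ℕ} (hf : ∀ f ∈ fs, ∀ i < n, tb f i < n)
    (hb : ∀ p ∈ ps, ∀ i < n, tb p i < n ∧ tb p (tb p i) = tb p i) (x y : Fin n)
    (h : chkP n fuel fs ps (x, y) = true) :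
    ∃ r ∈ ps, (rel n r).r x y ∧ ∀ θ : Setoid (Fin n),
      (∀ f ∈ ops n fs, ∀ x y, θ.r x y → θ.r (f x) (f y)) → θ.r x y → rel n r ≤ θ := by
  unfold chkP at h
  obtain ⟨r, hr, h2⟩ := (anyL_iff _ _).1 h
  have h3 : Nat.beq (tb r x) (tb r y) = true := by
    cases h4 : Nat.beq (tb r x) (tb r y)
    · rw [h4] at h2; simp at h2
    · rfl
  simp only at h2
  rw [h3, cond_true] at h2
  refine ⟨r, hr, Nat.eq_of_beq_eq_true h3, ?_⟩
  intro θ hθ hxy
  refine cover_sound (hb r hr) h2 ?_
  refine clo_sound fs (ext θ) (ext_equiv θ) hf (ext_op hf hθ) fuel _ _ ?_ (idL_pos n)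
    (idL_inj n _ (ext_equiv θ))
  intro q hq
  rw [List.mem_singleton] at hq
  subst hq
  exact ⟨x.2, y.2, (ext_iff θ x y).2 hxy⟩

theorem rel_compat {p : ℕ} (hf : ∀ f ∈ fs, ∀ i < n, tb f i < n)
    (hpf : ∀ f ∈ fs, ∀ i < n, tb p (tb f i) = tb p (tb f (tb p i))) :
    ∀ f ∈ ops n fs, ∀ x y, (rel n p).r x y → (rel n p).r (f x) (f y) := by
  rintro _ ⟨f, hf', rfl⟩ x y hxy
  have hxy' : tb p x = tb p y := hxy
  show tb p (opf n f x) = tb p (opf n f y)
  rw [opf_val (hf f hf'), opf_val (hf f hf'), hpf f hf' x x.2, hpf f hf' y y.2, hxy']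

/-- Main step: if every pair has a least listed congruence, the listed ones are all. -/
theorem rep_of_pairs' {k : ℕ} {b : Fin k → Fin k → Bool} (hn : 0 < n)
    (hB : chkB n fs ps = true) (hJ : ∀ p ∈ ps, ∀ q ∈ ps, ∃ r ∈ ps, rel n p ≤ rel n r ∧
      rel n q ≤ rel n r ∧ ∀ θ : Setoid (Fin n), rel n p ≤ θ → rel n q ≤ θ → rel n r ≤ θ)
    (hne : ∃ p0 ∈ ps, ∀ i < n, tb p0 i = i)
    (hO : chkO n ps b)
    (hinj : ∀ s t : Fin k, b s t = true → b t s = true → s = t)
    (hP : ∀ x y : Fin n, ∃ r ∈ ps, (rel n r).r x y ∧ ∀ θ : Setoid (Fin n),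
      (∀ f ∈ ops n fs, ∀ x y, θ.r x y → θ.r (f x) (f y)) → θ.r x y → rel n r ≤ θ) :
    Representable (FinB b) := by
  obtain ⟨hf, hb, hc⟩ := chkB_iff hB
  obtain ⟨hk, hO⟩ := hO
  have : NeZero n := ⟨hn.ne'⟩
  have hmem : ∀ t : Fin k, ps.get (t.cast hk.symm) ∈ ps := fun t => List.get_mem _ _
  let c : FinB b → {r : Setoid (Fin n) // ∀ f ∈ ops n fs, ∀ x y : Fin n, r.r x y → r.r (f x) (f y)} :=
    fun t => ⟨rel n (ps.get (Fin.cast hk.symm t)), rel_compat hf fun f hf' =>
      hc f hf' _ (hmem t)⟩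
  have hle : ∀ s t : FinB b, c s ≤ c t ↔ s ≤ t := by
    intro s t
    show rel n _ ≤ rel n _ ↔ b s t = true
    rw [hO s t]
    exact (lep_iff _ _ (hb _ (hmem s))).symm
  have hsurj : Function.Surjective c := by
    rintro ⟨θ, hθ⟩
    -- a largest listed relation below θ
    have key : ∀ l : List ℕ, (∀ p ∈ l, p ∈ ps) → ∃ m ∈ ps, rel n m ≤ θ ∧
        ∀ p ∈ l, rel n p ≤ θ → rel n p ≤ rel n m := by
      intro l
      induction l with
      | nil =>
        intro _
        obtain ⟨p0, hp0, h0⟩ := hne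
        refine ⟨p0, hp0, ?_, by simp⟩
        intro i j hij
        have h1 : tb p0 i = tb p0 j := hij
        rw [h0 i i.2, h0 j j.2] at h1
        rw [Fin.ext h1]
      | cons p l ih =>
        intro hl
        obtain ⟨m, hm, hmθ, hml⟩ := ih fun q hq => hl q (List.mem_cons_of_mem _ hq)
        by_cases hpθ : rel n p ≤ θ
        · obtain ⟨r, hr, h1, h2, h3⟩ := hJ p (hl p (List.mem_cons_self ..)) m hm
          refine ⟨r, hr, h3 θ hpθ hmθ, ?_⟩
          intro q hq hqθ
          rcases List.mem_cons.1 hq with rfl | hq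
          · exact h1
          · exact (hml q hq hqθ).trans h2
        · refine ⟨m, hm, hmθ, ?_⟩
          intro q hq hqθ
          rcases List.mem_cons.1 hq with rfl | hq
          · exact absurd hqθ hpθ
          · exact hml q hq hqθ
    obtain ⟨m, hm, hmθ, hmax⟩ := key ps fun _ h => h
    have hθm : θ ≤ rel n m := by
      intro x y hxy
      obtain ⟨r, hr, h1, h2⟩ := hP x y
      exact hmax r hr (h2 θ hθ hxy) h1
    obtain ⟨t, ht⟩ := List.get_of_mem hm
    refine ⟨(t.cast hk : Fin k), Subtype.ext ?_⟩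
    show rel n (ps.get (Fin.cast hk.symm (t.cast hk))) = θ
    have : Fin.cast hk.symm (t.cast hk) = t := rfl
    rw [this, ht]
    exact le_antisymm hmθ hθm
  have hinj' : Function.Injective c := by
    intro s t hst
    exact hinj s t ((hle s t).1 hst.le) ((hle t s).1 hst.ge)
  exact rep_unary (Fin n) (ops n fs) ⟨Equiv.ofBijective c ⟨hinj', hsurj⟩, hle _ _⟩

theorem rep_of_pairs {k : ℕ} {b : Fin k → Fin k → Bool} {fuel : ℕ} (hn : 0 < n)
    (hB : chkB n fs ps = true) (hJ : chkJ n fuel ps = true) (hne : ∃ p0 ∈ ps, ∀ i < n, tb p0 i = i)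
    (hO : chkO n ps b)
    (hinj : ∀ s t : Fin k, b s t = true → b t s = true → s = t)
    (hP : ∀ x y : Fin n, ∃ r ∈ ps, (rel n r).r x y ∧ ∀ θ : Setoid (Fin n),
      (∀ f ∈ ops n fs, ∀ x y, θ.r x y → θ.r (f x) (f y)) → θ.r x y → rel n r ≤ θ) :
    Representable (FinB b) :=
  rep_of_pairs' hn hB (fun p hp q hq => chkJ_sound (chkB_iff hB).2.1 hJ p q hp hq) hne hO hinj hP

end

end Pool.Agent.Helper71.SL
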