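import Pool.Agent.Helper71.SL.Chk

/-!
# The checker: general algebras and transitive permutation groups
-/

set_option autoImplicit false

namespace Pool.Agent.Helper71.SL

open Pool.Agent.H33WL

variable {n : ℕ} {fs ps : List ℕ}

/-- the order matrix of the list of root functions -/
def mat (n : ℕ) (ps : List ℕ) {k : ℕ} (b : Fin k → Fin k → Bool) : Bool :=
  cond (Nat.beq ps.length k)
    (allN k fun s => allN k fun t =>
      if hs : s < k then if ht : t < k then
        cond (b ⟨s, hs⟩ ⟨t, ht⟩) (lep n (getL ps s) (getL ps t)) (!(lep n (getL ps s) (getL ps t)))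
      else false else false) false

theorem getL_eq (l : List ℕ) (i : ℕ) (h : i < l.length) : getL l i = l.get ⟨i, h⟩ := by
  induction l generalizing i with
  | nil => simp at h
  | cons x l ih =>
    cases i with
    | zero => rfl
    | succ i =>
      have h' : i < l.length := by simpa using h
      simp only [getL]
      rw [ih i h']
      rfl

theorem mat_sound {k : ℕ} {b : Fin k → Fin k → Bool} (h : mat n ps b = true) : chkO n ps b := by
  unfold mat at h
  have h1 : Nat.beq ps.length k = true := by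
    cases h4 : Nat.beq ps.length k
    · rw [h4] at h; simp at h
    · rfl
  rw [h1, cond_true] at h
  have hk := Nat.eq_of_beq_eq_true h1
  refine ⟨hk, ?_⟩
  intro s t
  have h2 := (allN_iff _ _).1 ((allN_iff _ _).1 h s s.2) t t.2
  rw [dif_pos s.2, dif_pos t.2] at h2
  rw [getL_eq ps s (by rw [hk]; exact s.2), getL_eq ps t (by rw [hk]; exact t.2)] at h2
  have e1 : (⟨(s : ℕ), s.2⟩ : Fin k) = s := rfl
  have e2 : (⟨(t : ℕ), t.2⟩ : Fin k) = t := rfl
  cases hb : b s t
  · rw [e1, e2, hb, cond_false] at h2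
    have h3 := (Bool.not_eq_true' _).mp h2
    exact h3.symm
  · rw [e1, e2, hb, cond_true] at h2
    exact h2.symm

/-- the first root function is the identity -/
def idt (n : ℕ) (ps : List ℕ) : Bool := anyL (fun p => allN n fun i => Nat.beq (tb p i) i) ps

theorem idt_sound (h : idt n ps = true) : ∃ p0 ∈ ps, ∀ i < n, tb p0 i = i := by
  obtain ⟨p, hp, h1⟩ := (anyL_iff _ _).1 h
  exact ⟨p, hp, fun i hi => Nat.eq_of_beq_eq_true ((allN_iff _ _).1 h1 i hi)⟩

/-- The complete check of a general unary algebra. -/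
def full (n fuel : ℕ) (fs ps : List ℕ) {k : ℕ} (b : Fin k → Fin k → Bool) : Bool :=
  cond (Nat.blt 0 n) (cond (chkB n fs ps) (cond (idt n ps) (cond (mat n ps b)
    (cond (chkJ n fuel ps) (chkAll n fuel fs ps) false) false) false) false) false

theorem cond_and {a b : Bool} (h : cond a b false = true) : a = true ∧ b = true := by
  cases a
  · simp at h
  · exact ⟨rfl, h⟩

theorem rep_full {fuel : ℕ} {k : ℕ} {b : Fin k → Fin k → Bool}
    (hinj : ∀ s t : Fin k, b s t = true → b t s = true → s = t)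
    (h : full n fuel fs ps b = true) : Representable (FinB b) := by
  unfold full at h
  obtain ⟨h0, h⟩ := cond_and h
  obtain ⟨hB, h⟩ := cond_and h
  obtain ⟨hI, h⟩ := cond_and h
  obtain ⟨hM, h⟩ := cond_and h
  obtain ⟨hJ, hA⟩ := cond_and h
  obtain ⟨hf, hb, hc⟩ := chkB_iff hB
  have hne := idt_sound hI
  refine rep_of_pairs (Nat.blt_eq.mp h0) hB hJ hne (mat_sound hM) hinj ?_
  intro x y
  rcases lt_trichotomy x y with hxy | rfl | hxy
  · have h1 := (allN_iff _ _).1 ((allN_iff _ _).1 hA y y.2) x hxy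
    obtain ⟨r, hr, h2, h3⟩ := chkP_sound hf hb y x h1
    exact ⟨r, hr, (rel n r).symm h2, fun θ hθ h4 => h3 θ hθ (θ.symm h4)⟩
  · obtain ⟨p0, hp0, h0⟩ := hne
    refine ⟨p0, hp0, (rel n p0).refl _, ?_⟩
    intro θ _ _ i j hij
    have h1 : tb p0 i = tb p0 j := hij
    rw [h0 i i.2, h0 j j.2] at h1
    rw [Fin.ext h1]
  · have h1 := (allN_iff _ _).1 ((allN_iff _ _).1 hA x x.2) y hxy
    exact chkP_sound hf hb x y h1

/-- The complete check of a transitive permutation group with additional operations. -/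
def fullT (n fuel : ℕ) (fs ps : List ℕ) (gh : List (ℕ × ℕ)) (ord : List (ℕ × ℕ)) {k : ℕ}
    (b : Fin k → Fin k → Bool) : Bool :=
  cond (Nat.blt 0 n) (cond (chkB n fs ps) (cond (idt n ps) (cond (mat n ps b)
    (cond (chkJ n fuel ps) (chkTr n fuel fs ps gh ord) false) false) false) false) false

/-- a word moving `x` to `0` -/
def Good (n : ℕ) (fs ps : List ℕ) (x : ℕ) : Prop :=
  ∃ φ : Fin n → Fin n, (∀ hx : x < n, (φ ⟨x, hx⟩ : ℕ) = 0) ∧
    (∀ θ : Setoid (Fin n), (∀ f ∈ ops n fs, ∀ x y, θ.r x y → θ.r (f x) (f y)) →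
      ∀ u v, θ.r u v → θ.r (φ u) (φ v)) ∧
    ∀ p ∈ ps, ∀ u v, (rel n p).r (φ u) (φ v) → (rel n p).r u v

theorem tree_sound {gh : List (ℕ × ℕ)} (hf : ∀ f ∈ fs, ∀ i < n, tb f i < n)
    (h1 : ∀ q ∈ gh, q.1 ∈ fs) (h2 : ∀ q ∈ gh, ∀ i < n, tb q.2 (tb q.1 i) = i ∧ tb q.2 i < n ∧
      ∀ p ∈ ps, tb p (tb q.2 i) = tb p (tb q.2 (tb p i))) :
    ∀ (ord : List (ℕ × ℕ)) (known : List ℕ), (∀ y ∈ known, Good n fs ps y) →
      chkTr.tree gh known ord n = true → ∀ x < n, Good n fs ps x := by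
  intro ord
  induction ord with
  | nil =>
    intro known hk h x hx
    have h3 := (allN_iff _ _).1 h x hx
    obtain ⟨y, hy, h4⟩ := (anyL_iff _ _).1 h3
    rw [Nat.eq_of_beq_eq_true h4]
    exact hk y hy
  | cons q ord ih =>
    obtain ⟨x, g⟩ := q
    intro known hk h
    rw [chkTr.tree] at h
    obtain ⟨h3, h⟩ := cond_and h
    obtain ⟨h4, h⟩ := cond_and h
    refine ih (x :: known) ?_ h
    intro y hy
    rcases List.mem_cons.1 hy with rfl | hy
    · obtain ⟨q, hq, h5⟩ := (anyL_iff _ _).1 h3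
      obtain ⟨z, hz, h6⟩ := (anyL_iff _ _).1 h4
      have h5' := Nat.eq_of_beq_eq_true h5
      have h6' := Nat.eq_of_beq_eq_true h6
      obtain ⟨φ, hφ0, hφ1, hφ2⟩ := hk z hz
      have hgf : g ∈ fs := by rw [← h5']; exact h1 q hq
      refine ⟨fun u => φ (opf n g u), ?_, ?_, ?_⟩
      · intro hx
        have e : opf n g ⟨y, hx⟩ = ⟨tb g y, hf g hgf y hx⟩ := Fin.ext (opf_val (hf g hgf) _)
        show (φ (opf n g ⟨y, hx⟩) : ℕ) = 0
        rw [e]
        have e2 : (⟨tb g y, hf g hgf y hx⟩ : Fin n) = ⟨z, h6' ▸ hf g hgf y hx⟩ := Fin.ext h6'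
        rw [e2]
        exact hφ0 _
      · intro θ hθ u v huv
        exact hφ1 θ hθ _ _ (hθ _ ⟨g, hgf, rfl⟩ _ _ huv)
      · intro p hp u v huv
        have h7 := hφ2 p hp _ _ huv
        have h8 : tb p (opf n g u) = tb p (opf n g v) := h7
        rw [opf_val (hf g hgf), opf_val (hf g hgf)] at h8
        obtain ⟨hu1, _, _⟩ := h2 q hq u u.2
        obtain ⟨hv1, _, _⟩ := h2 q hq v v.2
        rw [h5'] at hu1 hv1
        have hu2 := (h2 q hq (tb g u) (hf g hgf u u.2)).2.2 p hp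
        have hv2 := (h2 q hq (tb g v) (hf g hgf v v.2)).2.2 p hp
        show tb p u = tb p v
        rw [← hu1, ← hv1, hu2, hv2, h8]
    · exact hk y hy

theorem rep_fullT {fuel : ℕ} {gh ord : List (ℕ × ℕ)} {k : ℕ} {b : Fin k → Fin k → Bool}
    (hinj : ∀ s t : Fin k, b s t = true → b t s = true → s = t)
    (h : fullT n fuel fs ps gh ord b = true) : Representable (FinB b) := by
  unfold fullT at h
  obtain ⟨h0, h⟩ := cond_and h
  obtain ⟨hB, h⟩ := cond_and h
  obtain ⟨hI, h⟩ := cond_and h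
  obtain ⟨hM, h⟩ := cond_and h
  obtain ⟨hJ, hA⟩ := cond_and h
  obtain ⟨hf, hb, hc⟩ := chkB_iff hB
  unfold chkTr at hA
  obtain ⟨h1, hA⟩ := cond_and hA
  obtain ⟨h2, hA⟩ := cond_and hA
  obtain ⟨h3, h4⟩ := cond_and hA
  have hn : 0 < n := Nat.blt_eq.mp h0
  have hgood := tree_sound (ps := ps) (gh := gh) hf
    (fun q hq => by
      obtain ⟨f, hf', h5⟩ := (anyL_iff _ _).1 ((allL_iff _ _).1 h2 q hq)
      rw [← Nat.eq_of_beq_eq_true h5]
      exact hf')
    (fun q hq i hi => by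
      have h5 := (allN_iff _ _).1 ((allL_iff _ _).1 h1 q hq) i hi
      obtain ⟨h6, h5⟩ := cond_and h5
      obtain ⟨h7, h5⟩ := cond_and h5
      exact ⟨Nat.eq_of_beq_eq_true h6, Nat.blt_eq.mp h7, fun p hp =>
        Nat.eq_of_beq_eq_true ((allL_iff _ _).1 h5 p hp)⟩)
    ord [0] (by
      intro y hy
      rw [List.mem_singleton] at hy
      subst hy
      exact ⟨id, fun _ => rfl, fun _ _ _ _ h => h, fun _ _ _ _ h => h⟩) h3
  refine rep_of_pairs hn hB hJ (idt_sound hI) (mat_sound hM) hinj ?_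
  intro x y
  obtain ⟨φ, hφ0, hφ1, hφ2⟩ := hgood x x.2
  have hx0 : φ x = ⟨0, hn⟩ := Fin.ext (hφ0 x.2)
  have h5 := (allN_iff _ _).1 h4 (φ y) (φ y).2
  obtain ⟨r, hr, h6, h7⟩ := chkP_sound hf hb ⟨0, hn⟩ (φ y) h5
  refine ⟨r, hr, hφ2 r hr _ _ (by rw [hx0]; exact h6), ?_⟩
  intro θ hθ hxy
  refine h7 θ hθ ?_
  have := hφ1 θ hθ _ _ hxy
  rw [hx0] at this
  exact this

end Pool.Agent.Helper71.SL
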