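import Pool.Agent.Helper71.SL.Chk2

/-!
# A linear-time checker with certificates

The same as `full`, but the closures are given by certificates: a pair `(x, y)` is handled by
an operation taking it to a pair which is already handled (`redS`); for a few base pairs, a list of
generated pairs (`genS`) and a spanning forest (`spanS`) are given; joins are checked by spanning
forests as well.
-/

set_option autoImplicit false

namespace Pool.Agent.Helper71.SL

open Pool.Agent.H33WL

/-- bit test -/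
def tbit (m i : ℕ) : Bool := Nat.beq (Nat.land (Nat.shiftRight m i) 1) 1

/-- setting a bit -/
def sbit (m i : ℕ) : ℕ := Nat.lor m (Nat.shiftLeft 1 i)

theorem tbit_iff (m i : ℕ) : tbit m i = true ↔ m.testBit i = true := by
  unfold tbit
  have h1 : Nat.land (Nat.shiftRight m i) 1 = (m >>> i) % 2 := Nat.and_one_is_mod _
  rw [h1, Nat.testBit_eq_decide_div_mod_eq, Nat.shiftRight_eq_div_pow]
  constructor
  · intro h
    simpa using Nat.eq_of_beq_eq_true h
  · intro h
    rw [decide_eq_true_eq] at h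
    rw [h]
    rfl

theorem tbit_sbit {m i j : ℕ} (h : tbit (sbit m i) j = true) : tbit m j = true ∨ j = i := by
  rw [tbit_iff] at h ⊢
  have h1 : sbit m i = m ||| 2 ^ i := by
    show m ||| (1 <<< i) = m ||| 2 ^ i
    rw [Nat.one_shiftLeft]
  rw [h1, Nat.testBit_or, Bool.or_eq_true, Nat.testBit_two_pow, decide_eq_true_eq] at h
  rcases h with h | h
  · exact Or.inl h
  · exact Or.inr h.symm

theorem tbit_lor {a b j : ℕ} (h : tbit (Nat.lor a b) j = true) :
    tbit a j = true ∨ tbit b j = true := by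
  rw [tbit_iff] at h ⊢
  rw [tbit_iff]
  have h1 : Nat.lor a b = a ||| b := rfl
  rw [h1, Nat.testBit_or, Bool.or_eq_true] at h
  exact h

theorem tbit_zero (j : ℕ) : tbit 0 j = false := by
  cases h : tbit 0 j
  · rfl
  · rw [tbit_iff] at h
    simp at h

/-- index of a pair -/
def ix (n x y : ℕ) : ℕ := Nat.add (Nat.mul n x) y

theorem ix_inj {n x y x' y' : ℕ} (hy : y < n) (hy' : y' < n) (h : ix n x y = ix n x' y') :
    x = x' ∧ y = y' := by
  have h1 : n * x + y = n * x' + y' := h
  have hn : 0 < n := by omega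
  have h2 : (n * x + y) / n = (n * x' + y') / n := by rw [h1]
  rw [Nat.mul_add_div hn, Nat.mul_add_div hn, Nat.div_eq_of_lt hy, Nat.div_eq_of_lt hy'] at h2
  have h3 : x = x' := by omega
  subst h3
  exact ⟨rfl, by omega⟩

/-- setting the two bits of a pair -/
def spair (n m x y : ℕ) : ℕ := sbit (sbit m (ix n x y)) (ix n y x)

/-- all the pairs in the mask have the property `P` -/
def SM (n m : ℕ) (P : ℕ → ℕ → Prop) : Prop :=
  ∀ x < n, ∀ y < n, tbit m (ix n x y) = true → P x y

theorem SM_zero (n : ℕ) (P : ℕ → ℕ → Prop) : SM n 0 P := by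
  intro x _ y _ h
  rw [tbit_zero] at h
  exact absurd h (by simp)

theorem SM_spair {n m a b : ℕ} {P : ℕ → ℕ → Prop} (h : SM n m P) (ha : a < n) (hb : b < n)
    (h1 : P a b) (h2 : P b a) : SM n (spair n m a b) P := by
  intro x hx y hy h3
  rcases tbit_sbit h3 with h4 | h4
  · rcases tbit_sbit h4 with h5 | h5
    · exact h x hx y hy h5
    · obtain ⟨rfl, rfl⟩ := ix_inj hy hb h5
      exact h1
  · obtain ⟨rfl, rfl⟩ := ix_inj hy ha h4
    exact h2

theorem SM_lor {n a b : ℕ} {P : ℕ → ℕ → Prop} (ha : SM n a P) (hb : SM n b P) :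
    SM n (Nat.lor a b) P := by
  intro x hx y hy h
  rcases tbit_lor h with h | h
  · exact ha x hx y hy h
  · exact hb x hx y hy h

/-- generated pairs: the digits of `T` (48 bits each) are `x, y, f`; if `(x, y)` is in the mask, so
is `(f x, f y)` -/
def genS (n : ℕ) (fs : List ℕ) : ℕ → ℕ → ℕ → ℕ
  | 0, _, m => m
  | k + 1, T, m =>
    genS n fs k (Nat.shiftRight T 48)
      (cond (Nat.blt (Nat.land T 65535) n) (cond (Nat.blt (Nat.land (Nat.shiftRight T 16) 65535) n)
        (cond (tbit m (ix n (Nat.land T 65535) (Nat.land (Nat.shiftRight T 16) 65535)))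
          (spair n m (tb (getL fs (Nat.land (Nat.shiftRight T 32) 65535)) (Nat.land T 65535))
            (tb (getL fs (Nat.land (Nat.shiftRight T 32) 65535)) (Nat.land (Nat.shiftRight T 16) 65535)))
          m) m) m)

/-- reduced pairs: the digits of `T` are `x, y, f`; if `(f x, f y)` is in the mask, so is
`(x, y)` -/
def redS (n : ℕ) (fs : List ℕ) (r : ℕ) : ℕ → ℕ → ℕ → ℕ
  | 0, _, m => m
  | k + 1, T, m =>
    redS n fs r k (Nat.shiftRight T 48)
      (cond (Nat.blt (Nat.land T 65535) n) (cond (Nat.blt (Nat.land (Nat.shiftRight T 16) 65535) n)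
        (cond (Nat.beq (tb r (Nat.land T 65535)) (tb r (Nat.land (Nat.shiftRight T 16) 65535)))
        (cond (tbit m (ix n (tb (getL fs (Nat.land (Nat.shiftRight T 32) 65535)) (Nat.land T 65535))
            (tb (getL fs (Nat.land (Nat.shiftRight T 32) 65535)) (Nat.land (Nat.shiftRight T 16) 65535))))
          (spair n m (Nat.land T 65535) (Nat.land (Nat.shiftRight T 16) 65535)) m) m) m) m)

/-- spanning forest: the digits of `T` (32 bits each) are `x, y`; if `y` is known to be related to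
its root and `c x y`, so is `x` -/
def spanS (n r : ℕ) (c : ℕ → ℕ → Bool) : ℕ → ℕ → ℕ → ℕ
  | 0, _, K => K
  | k + 1, T, K =>
    spanS n r c k (Nat.shiftRight T 32)
      (cond (Nat.blt (Nat.land T 65535) n) (cond (Nat.blt (Nat.land (Nat.shiftRight T 16) 65535) n)
        (cond (Nat.beq (tb r (Nat.land T 65535)) (tb r (Nat.land (Nat.shiftRight T 16) 65535)))
        (cond (tbit K (Nat.land (Nat.shiftRight T 16) 65535))
        (cond (c (Nat.land T 65535) (Nat.land (Nat.shiftRight T 16) 65535))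
          (sbit K (Nat.land T 65535)) K) K) K) K) K)

/-- the roots of `r` -/
def rootM (r : ℕ) : ℕ → ℕ
  | 0 => 0
  | x + 1 => cond (Nat.beq (tb r x) x) (sbit (rootM r x) x) (rootM r x)

theorem genS_sound {n : ℕ} {fs : List ℕ} {P : ℕ → ℕ → Prop}
    (hP : ∀ x < n, ∀ y < n, ∀ i, P x y → P (tb (getL fs i) x) (tb (getL fs i) y) ∧
      P (tb (getL fs i) y) (tb (getL fs i) x) ∧ tb (getL fs i) x < n ∧ tb (getL fs i) y < n) :
    ∀ (k T m : ℕ), SM n m P → SM n (genS n fs k T m) P := by
  intro k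
  induction k with
  | zero => intro T m h; exact h
  | succ k ih =>
    intro T m h
    rw [genS]
    apply ih
    generalize Nat.land T 65535 = x
    generalize Nat.land (Nat.shiftRight T 16) 65535 = y
    generalize Nat.land (Nat.shiftRight T 32) 65535 = i
    cases h1 : Nat.blt x n
    · exact h
    · cases h2 : Nat.blt y n
      · exact h
      · cases h3 : tbit m (ix n x y)
        · exact h
        · simp only [cond_true]
          have h4 := h x (Nat.blt_eq.mp h1) y (Nat.blt_eq.mp h2) h3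
          obtain ⟨h5, h6, h7, h8⟩ := hP x (Nat.blt_eq.mp h1) y (Nat.blt_eq.mp h2) i h4
          exact SM_spair h h7 h8 h5 h6

theorem redS_sound {n r : ℕ} {fs : List ℕ} {P : ℕ → ℕ → Prop}
    (hP : ∀ x < n, ∀ y < n, ∀ i, tb r x = tb r y → P (tb (getL fs i) x) (tb (getL fs i) y) →
      P x y ∧ P y x)
    (hlt : ∀ x < n, ∀ i, tb (getL fs i) x < n) :
    ∀ (k T m : ℕ), SM n m P → SM n (redS n fs r k T m) P := by
  intro k
  induction k with
  | zero => intro T m h; exact h
  | succ k ih =>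
    intro T m h
    rw [redS]
    apply ih
    generalize Nat.land T 65535 = x
    generalize Nat.land (Nat.shiftRight T 16) 65535 = y
    generalize Nat.land (Nat.shiftRight T 32) 65535 = i
    cases h1 : Nat.blt x n
    · exact h
    · cases h2 : Nat.blt y n
      · exact h
      · cases h0 : Nat.beq (tb r x) (tb r y)
        · exact h
        · cases h3 : tbit m (ix n (tb (getL fs i) x) (tb (getL fs i) y))
          · exact h
          · simp only [cond_true]
            have hx := Nat.blt_eq.mp h1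
            have hy := Nat.blt_eq.mp h2
            have h4 := h _ (hlt x hx i) _ (hlt y hy i) h3
            obtain ⟨h5, h6⟩ := hP x hx y hy i (Nat.eq_of_beq_eq_true h0) h4
            exact SM_spair h hx hy h5 h6

theorem spanS_sound {n r : ℕ} {c : ℕ → ℕ → Bool} {θ : ℕ → ℕ → Prop} (hθ : Equivalence θ)
    (hc : ∀ x < n, ∀ y < n, c x y = true → θ x y) :
    ∀ (k T K : ℕ), (∀ x < n, tbit K x = true → θ x (tb r x)) →
      ∀ x < n, tbit (spanS n r c k T K) x = true → θ x (tb r x) := by
  intro k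
  induction k with
  | zero => intro T K h; exact h
  | succ k ih =>
    intro T K h
    rw [spanS]
    apply ih
    generalize Nat.land T 65535 = x
    generalize Nat.land (Nat.shiftRight T 16) 65535 = y
    cases h1 : Nat.blt x n
    · exact h
    · cases h2 : Nat.blt y n
      · exact h
      · cases h0 : Nat.beq (tb r x) (tb r y)
        · exact h
        · cases h3 : tbit K y
          · exact h
          · cases h4 : c x y
            · exact h
            · simp only [cond_true]
              have hx := Nat.blt_eq.mp h1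
              have hy := Nat.blt_eq.mp h2
              intro z hz h5
              rcases tbit_sbit h5 with h6 | rfl
              · exact h z hz h6
              · have h7 := h y hy h3
                rw [← Nat.eq_of_beq_eq_true h0] at h7
                exact hθ.trans (hc _ hx _ hy h4) h7

theorem rootM_sound {r : ℕ} {θ : ℕ → ℕ → Prop} (hθ : Equivalence θ) (k : ℕ) :
    ∀ x, tbit (rootM r k) x = true → θ x (tb r x) := by
  induction k with
  | zero =>
    intro x h
    rw [rootM, tbit_zero] at h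
    exact absurd h (by simp)
  | succ k ih =>
    intro x h
    rw [rootM] at h
    cases h1 : Nat.beq (tb r k) k
    · rw [h1] at h
      exact ih x h
    · rw [h1, cond_true] at h
      rcases tbit_sbit h with h2 | rfl
      · exact ih x h2
      · rw [Nat.eq_of_beq_eq_true h1]
        exact hθ.refl _

/-- certificate of a base pair: `x, y`, generated pairs, spanning forest -/
structure Base where
  x : ℕ
  y : ℕ
  lg : ℕ
  G : ℕ
  ls : ℕ
  S : ℕ

/-- all points are related to their roots -/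
def allK (n K : ℕ) : Bool := allN n fun a => tbit K a

def baseOK (n : ℕ) (fs : List ℕ) (r : ℕ) (B : Base) : Bool :=
  cond (Nat.blt B.x n) (cond (Nat.blt B.y n) (cond (Nat.beq (tb r B.x) (tb r B.y))
    (allK n (spanS n r (fun a b => tbit (genS n fs B.lg B.G (spair n 0 B.x B.y)) (ix n a b))
      B.ls B.S (rootM r n))) false) false) false

/-- the mask of the verified base pairs -/
def baseM (n : ℕ) (fs : List ℕ) (r : ℕ) : List Base → ℕ
  | [] => 0
  | B :: l => cond (baseOK n fs r B) (spair n (baseM n fs r l) B.x B.y) (baseM n fs r l)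

/-- reductions in chunks -/
def redL (n : ℕ) (fs : List ℕ) (r : ℕ) : List (ℕ × ℕ) → ℕ → ℕ
  | [], m => m
  | e :: l, m => redL n fs r l (redS n fs r e.1 e.2 m)

/-- certificate of the pairs whose congruence is the one number `r` -/
structure PCert where
  r : ℕ
  bases : List Base
  red : List (ℕ × ℕ)

/-- the mask of all handled pairs -/
def allM (n : ℕ) (fs ps : List ℕ) : List PCert → ℕ
  | [] => 0
  | c :: l => cond (Nat.blt c.r ps.length)
      (Nat.lor (allM n fs ps l) (redL n fs (getL ps c.r) c.red (baseM n fs (getL ps c.r) c.bases)))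
      (allM n fs ps l)

/-- certificate of a join: `i`, `j`, `r`, spanning forest -/
structure JCert where
  i : ℕ
  j : ℕ
  r : ℕ
  ls : ℕ
  S : ℕ

def joinOK (n p q r ls S : ℕ) : Bool :=
  cond (lep n p r) (cond (lep n q r)
    (allK n (spanS n r (fun a b => cond (Nat.beq (tb p a) (tb p b)) true
      (Nat.beq (tb q a) (tb q b))) ls S (rootM r n))) false) false

def joinsOK (n : ℕ) (ps : List ℕ) (js : List JCert) : Bool :=
  allN ps.length fun i => allN i fun j =>
    cond (lep n (getL ps i) (getL ps j)) true (cond (lep n (getL ps j) (getL ps i)) true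
      (anyL (fun c => cond (Nat.beq c.i i) (cond (Nat.beq c.j j) (cond (Nat.blt c.r ps.length)
        (joinOK n (getL ps i) (getL ps j) (getL ps c.r) c.ls c.S) false) false) false) js))

/-- the complete check with certificates -/
def full3 (n : ℕ) (fs ps : List ℕ) (cs : List PCert) (js : List JCert) {k : ℕ}
    (b : Fin k → Fin k → Bool) : Bool :=
  cond (Nat.blt 0 n) (cond (chkB n fs ps) (cond (idt n ps) (cond (mat n ps b)
    (cond (joinsOK n ps js) (allN n fun x => allN x fun y => tbit (allM n fs ps cs) (ix n x y))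
      false) false) false) false) false

section

variable {n : ℕ} {fs ps : List ℕ}

/-- the relation `r` is the least listed congruence of `(x, y)` -/
def Dn (n : ℕ) (fs ps : List ℕ) (r x y : ℕ) : Prop :=
  ∀ (_ : x < n) (_ : y < n), tb r x = tb r y ∧ ∀ θ : Setoid (Fin n),
    (∀ f ∈ ops n fs, ∀ x y, θ.r x y → θ.r (f x) (f y)) → ext θ x y → rel n r ≤ θ

theorem getL_or (l : List ℕ) (i : ℕ) : getL l i ∈ l ∨ getL l i = 0 := by
  induction l generalizing i with
  | nil => exact Or.inr rfl
  | cons x l ih =>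
    cases i with
    | zero => exact Or.inl (List.mem_cons_self ..)
    | succ i =>
      rcases ih i with h | h
      · exact Or.inl (List.mem_cons_of_mem _ h)
      · exact Or.inr h

theorem tb_zero (x : ℕ) : tb 0 x = 0 := by
  unfold tb
  have : Nat.shiftRight 0 (Nat.mul 16 x) = 0 := Nat.zero_shiftRight _
  rw [this]
  rfl

theorem getL_lt (hf : ∀ f ∈ fs, ∀ i < n, tb f i < n) (i x : ℕ) (hx : x < n) :
    tb (getL fs i) x < n := by
  rcases getL_or fs i with h | h
  · exact hf _ h x hx
  · rw [h, tb_zero]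
    omega

theorem getL_ext {θ : Setoid (Fin n)} (hf : ∀ f ∈ fs, ∀ i < n, tb f i < n)
    (hθ : ∀ f ∈ ops n fs, ∀ x y, θ.r x y → θ.r (f x) (f y)) (i x y : ℕ) (hx : x < n) (hy : y < n)
    (h : ext θ x y) : ext θ (tb (getL fs i) x) (tb (getL fs i) y) := by
  rcases getL_or fs i with h1 | h1
  · exact ext_op hf hθ _ h1 x hx y hy h
  · rw [h1, tb_zero, tb_zero]
    exact Or.inl rfl

theorem le_of_allK {r K : ℕ} {θ : Setoid (Fin n)}
    (hr : ∀ i < n, tb r i < n ∧ tb r (tb r i) = tb r i)
    (hK : allK n K = true) (h : ∀ x < n, tbit K x = true → ext θ x (tb r x)) : rel n r ≤ θ := by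
  unfold allK at hK
  rw [allN_iff] at hK
  intro i j hij
  have hij' : tb r i = tb r j := hij
  have h1 := h i i.2 (hK i i.2)
  have h2 := h j j.2 (hK j j.2)
  rw [← hij'] at h2
  exact (ext_iff θ i j).1 ((ext_equiv θ).trans h1 ((ext_equiv θ).symm h2))

theorem baseOK_sound {r : ℕ} (hf : ∀ f ∈ fs, ∀ i < n, tb f i < n)
    (hr : ∀ i < n, tb r i < n ∧ tb r (tb r i) = tb r i) {B : Base}
    (h : baseOK n fs r B = true) : B.x < n ∧ B.y < n ∧ Dn n fs ps r B.x B.y := by
  unfold baseOK at h
  obtain ⟨h1, h⟩ := cond_and h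
  obtain ⟨h2, h⟩ := cond_and h
  obtain ⟨h3, h⟩ := cond_and h
  have hx := Nat.blt_eq.mp h1
  have hy := Nat.blt_eq.mp h2
  refine ⟨hx, hy, fun _ _ => ⟨Nat.eq_of_beq_eq_true h3, ?_⟩⟩
  intro θ hθ hxy
  refine le_of_allK hr h ?_
  have hSM : SM n (genS n fs B.lg B.G (spair n 0 B.x B.y)) (ext θ) := by
    refine genS_sound ?_ _ _ _ (SM_spair (SM_zero n _) hx hy hxy ((ext_equiv θ).symm hxy))
    intro x hx y hy i hxy
    have h4 := getL_ext hf hθ i x y hx hy hxy
    exact ⟨h4, (ext_equiv θ).symm h4, getL_lt hf i x hx, getL_lt hf i y hy⟩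
  exact spanS_sound (ext_equiv θ) (fun x hx y hy h => hSM x hx y hy h) _ _ _
    (fun x _ h => rootM_sound (ext_equiv θ) n x h)

theorem Dn_symm {r x y : ℕ} (h : Dn n fs ps r x y) : Dn n fs ps r y x := by
  intro hy hx
  obtain ⟨h1, h2⟩ := h hx hy
  exact ⟨h1.symm, fun θ hθ hyx => h2 θ hθ ((ext_equiv θ).symm hyx)⟩

theorem baseM_sound {r : ℕ} (hf : ∀ f ∈ fs, ∀ i < n, tb f i < n)
    (hr : ∀ i < n, tb r i < n ∧ tb r (tb r i) = tb r i) (l : List Base) :
    SM n (baseM n fs r l) (Dn n fs ps r) := by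
  induction l with
  | nil => exact SM_zero n _
  | cons B l ih =>
    rw [baseM]
    cases h : baseOK n fs r B
    · exact ih
    · obtain ⟨hx, hy, h1⟩ := baseOK_sound (ps := ps) hf hr h
      exact SM_spair ih hx hy h1 (Dn_symm h1)

theorem redL_sound {r : ℕ} (hf : ∀ f ∈ fs, ∀ i < n, tb f i < n) (l : List (ℕ × ℕ)) :
    ∀ m, SM n m (Dn n fs ps r) → SM n (redL n fs r l m) (Dn n fs ps r) := by
  induction l with
  | nil => intro m h; exact h
  | cons e l ih =>
    intro m h
    rw [redL]
    apply ih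
    refine redS_sound ?_ (fun x hx i => getL_lt hf i x hx) _ _ _ h
    intro x hx y hy i hxy h1
    have h2 : Dn n fs ps r x y := by
      intro _ _
      refine ⟨hxy, ?_⟩
      intro θ hθ h3
      exact (h1 (getL_lt hf i x hx) (getL_lt hf i y hy)).2 θ hθ (getL_ext hf hθ i x y hx hy h3)
    exact ⟨h2, Dn_symm h2⟩

theorem getL_mem (l : List ℕ) (i : ℕ) (h : i < l.length) : getL l i ∈ l := by
  rw [getL_eq l i h]
  exact List.get_mem _ _

theorem allM_sound (hf : ∀ f ∈ fs, ∀ i < n, tb f i < n)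
    (hb : ∀ p ∈ ps, ∀ i < n, tb p i < n ∧ tb p (tb p i) = tb p i) (cs : List PCert) :
    SM n (allM n fs ps cs) fun x y => ∃ r ∈ ps, Dn n fs ps r x y := by
  induction cs with
  | nil => exact SM_zero n _
  | cons c l ih =>
    rw [allM]
    cases h : Nat.blt c.r ps.length
    · exact ih
    · refine SM_lor ih ?_
      have hm := getL_mem ps c.r (Nat.blt_eq.mp h)
      intro x hx y hy h1
      exact ⟨_, hm, redL_sound hf c.red _ (baseM_sound hf (hb _ hm) c.bases) x hx y hy h1⟩

theorem joinOK_sound (hb : ∀ p ∈ ps, ∀ i < n, tb p i < n ∧ tb p (tb p i) = tb p i)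
    {p q r ls S : ℕ} (hp : p ∈ ps) (hq : q ∈ ps) (hr : r ∈ ps) (h : joinOK n p q r ls S = true) :
    rel n p ≤ rel n r ∧ rel n q ≤ rel n r ∧
      ∀ θ : Setoid (Fin n), rel n p ≤ θ → rel n q ≤ θ → rel n r ≤ θ := by
  unfold joinOK at h
  obtain ⟨h1, h⟩ := cond_and h
  obtain ⟨h2, h⟩ := cond_and h
  refine ⟨(lep_iff p r (hb p hp)).1 h1, (lep_iff q r (hb q hq)).1 h2, ?_⟩
  intro θ hpθ hqθ
  refine le_of_allK (hb r hr) h ?_
  refine spanS_sound (ext_equiv θ) ?_ _ _ _ (fun x _ h => rootM_sound (ext_equiv θ) n x h)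
  intro x hx y hy h3
  cases h4 : Nat.beq (tb p x) (tb p y)
  · simp only [h4, cond_false] at h3
    have h5 : (rel n q).r ⟨x, hx⟩ ⟨y, hy⟩ := Nat.eq_of_beq_eq_true h3
    exact Or.inr ⟨hx, hy, hqθ h5⟩
  · have h5 : (rel n p).r ⟨x, hx⟩ ⟨y, hy⟩ := Nat.eq_of_beq_eq_true h4
    exact Or.inr ⟨hx, hy, hpθ h5⟩

theorem joinsOK_sound (hb : ∀ p ∈ ps, ∀ i < n, tb p i < n ∧ tb p (tb p i) = tb p i)
    {js : List JCert} (h : joinsOK n ps js = true) :
    ∀ p ∈ ps, ∀ q ∈ ps, ∃ r ∈ ps, rel n p ≤ rel n r ∧ rel n q ≤ rel n r ∧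
      ∀ θ : Setoid (Fin n), rel n p ≤ θ → rel n q ≤ θ → rel n r ≤ θ := by
  have key : ∀ i < ps.length, ∀ j < i, ∃ r ∈ ps, rel n (getL ps i) ≤ rel n r ∧
      rel n (getL ps j) ≤ rel n r ∧ ∀ θ : Setoid (Fin n), rel n (getL ps i) ≤ θ →
        rel n (getL ps j) ≤ θ → rel n r ≤ θ := by
    intro i hi j hj
    have hpi := getL_mem ps i hi
    have hpj := getL_mem ps j (hj.trans hi)
    have h1 := (allN_iff _ _).1 ((allN_iff _ _).1 h i hi) j hj
    cases h2 : lep n (getL ps i) (getL ps j)
    · rw [h2, cond_false] at h1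
      cases h3 : lep n (getL ps j) (getL ps i)
      · rw [h3, cond_false] at h1
        obtain ⟨c, _, h4⟩ := (anyL_iff _ _).1 h1
        obtain ⟨_, h4⟩ := cond_and h4
        obtain ⟨_, h4⟩ := cond_and h4
        obtain ⟨h5, h4⟩ := cond_and h4
        have hr := getL_mem ps c.r (Nat.blt_eq.mp h5)
        exact ⟨_, hr, joinOK_sound hb hpi hpj hr h4⟩
      · exact ⟨_, hpi, le_rfl, (lep_iff _ _ (hb _ hpj)).1 h3, fun θ h4 _ => h4⟩
    · exact ⟨_, hpj, (lep_iff _ _ (hb _ hpi)).1 h2, le_rfl, fun θ _ h4 => h4⟩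
  intro p hp q hq
  obtain ⟨s, hs⟩ := List.get_of_mem hp
  obtain ⟨t, ht⟩ := List.get_of_mem hq
  have es : p = getL ps s := by rw [getL_eq ps s s.2]; exact hs.symm
  have et : q = getL ps t := by rw [getL_eq ps t t.2]; exact ht.symm
  rcases Nat.lt_trichotomy (s : ℕ) (t : ℕ) with hst | hst | hst
  · obtain ⟨r, hr, h1, h2, h3⟩ := key t t.2 s hst
    rw [es, et]
    exact ⟨r, hr, h2, h1, fun θ h4 h5 => h3 θ h5 h4⟩
  · refine ⟨p, hp, le_rfl, ?_, fun θ h4 _ => h4⟩
    rw [es, et, hst]
  · obtain ⟨r, hr, h1, h2, h3⟩ := key s s.2 t hst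
    rw [es, et]
    exact ⟨r, hr, h1, h2, h3⟩

theorem rep_full3 {cs : List PCert} {js : List JCert} {k : ℕ} {b : Fin k → Fin k → Bool}
    (hinj : ∀ s t : Fin k, b s t = true → b t s = true → s = t)
    (h : full3 n fs ps cs js b = true) : Representable (FinB b) := by
  unfold full3 at h
  obtain ⟨h0, h⟩ := cond_and h
  obtain ⟨hB, h⟩ := cond_and h
  obtain ⟨hI, h⟩ := cond_and h
  obtain ⟨hM, h⟩ := cond_and h
  obtain ⟨hJ, hA⟩ := cond_and h
  obtain ⟨hf, hb, hc⟩ := chkB_iff hB
  have hne := idt_sound hI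
  have hall := allM_sound hf hb cs
  have key : ∀ x < n, ∀ y < x, ∃ r ∈ ps, Dn n fs ps r x y := by
    intro x hx y hy
    exact hall x hx y (hy.trans hx) ((allN_iff _ _).1 ((allN_iff _ _).1 hA x hx) y hy)
  refine rep_of_pairs' (Nat.blt_eq.mp h0) hB (joinsOK_sound hb hJ) hne (mat_sound hM) hinj ?_
  intro x y
  rcases lt_trichotomy x y with hxy | rfl | hxy
  · obtain ⟨r, hr, h1⟩ := key y y.2 x hxy
    obtain ⟨h2, h3⟩ := h1 y.2 x.2
    exact ⟨r, hr, h2.symm, fun θ hθ h4 => h3 θ hθ ((ext_iff θ y x).2 (θ.symm h4))⟩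
  · obtain ⟨p0, hp0, h0⟩ := hne
    refine ⟨p0, hp0, (rel n p0).refl _, ?_⟩
    intro θ _ _ i j hij
    have h1 : tb p0 i = tb p0 j := hij
    rw [h0 i i.2, h0 j j.2] at h1
    rw [Fin.ext h1]
  · obtain ⟨r, hr, h1⟩ := key x x.2 y hxy
    obtain ⟨h2, h3⟩ := h1 x.2 y.2
    exact ⟨r, hr, h2, fun θ hθ h4 => h3 θ hθ ((ext_iff θ x y).2 h4)⟩

end

end Pool.Agent.Helper71.SL
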