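import Pool.Agent.Helper71.SL.Chk3

/-!
# A checker for transitive algebras

The first `nr` operations are permutations and generate a transitive group. Then only the pairs
`(0, y)` matter. Certificates are words in the operations (hexadecimal digits).
-/

set_option autoImplicit false

namespace Pool.Agent.Helper71.SL

open Pool.Agent.H33WL

/-- apply the word `T` of length `k` to `x` -/
def wap (fs : List ℕ) : ℕ → ℕ → ℕ → ℕ
  | 0, _, x => x
  | k + 1, T, x => wap fs k (Nat.shiftRight T 4) (tb (getL fs (Nat.land T 15)) x)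

/-- a walk: a letter is applied to the pair `(a, b)`; the digit `15` moves `c` from one end of the
pair to the other one -/
def walk (fs : List ℕ) : ℕ → ℕ → ℕ → ℕ → ℕ → ℕ
  | 0, _, _, _, c => c
  | k + 1, T, a, b, c =>
    cond (Nat.beq (Nat.land T 15) 15)
      (walk fs k (Nat.shiftRight T 4) a b (cond (Nat.beq c a) b (cond (Nat.beq c b) a c)))
      (walk fs k (Nat.shiftRight T 4) (tb (getL fs (Nat.land T 15)) a)
        (tb (getL fs (Nat.land T 15)) b) c)

/-- lookup in a list of words -/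
def getW : List (ℕ × ℕ) → ℕ → ℕ × ℕ
  | [], _ => (0, 0)
  | x :: _, 0 => x
  | _ :: l, i + 1 => getW l i

/-- orbit: digits (32 bits) `z`, index of a word `w`; if `z` and `w 0` are known, so is `w z` -/
def orbS (n : ℕ) (fs : List ℕ) (ws : List (ℕ × ℕ)) (c : ℕ → Bool) : ℕ → ℕ → ℕ → ℕ
  | 0, _, Z => Z
  | k + 1, T, Z =>
    orbS n fs ws c k (Nat.shiftRight T 32)
      (cond (Nat.blt (Nat.land T 65535) n)
        (cond (cond (c (Nat.land T 65535)) true (tbit Z (Nat.land T 65535)))
          (cond (cond (c (wap fs (getW ws (Nat.land (Nat.shiftRight T 16) 65535)).1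
              (getW ws (Nat.land (Nat.shiftRight T 16) 65535)).2 0)) true
            (tbit Z (wap fs (getW ws (Nat.land (Nat.shiftRight T 16) 65535)).1
              (getW ws (Nat.land (Nat.shiftRight T 16) 65535)).2 0)))
            (sbit Z (wap fs (getW ws (Nat.land (Nat.shiftRight T 16) 65535)).1
              (getW ws (Nat.land (Nat.shiftRight T 16) 65535)).2 (Nat.land T 65535))) Z) Z) Z)

/-- chunks -/
def orbL (n : ℕ) (fs : List ℕ) (ws : List (ℕ × ℕ)) (c : ℕ → Bool) : List (ℕ × ℕ) → ℕ → ℕ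
  | [], Z => Z
  | e :: l, Z => orbL n fs ws c l (orbS n fs ws c e.1 e.2 Z)

/-- the block of `0` is covered -/
def covG (n r : ℕ) (c : ℕ → Bool) (Z : ℕ) : Bool :=
  allN n fun z => cond (Nat.beq (tb r 0) (tb r z)) (cond (c z) true (tbit Z z)) true

/-- handled points: an entry `(y, k, T)` is a walk from `y` to a handled point -/
def redG (fs : List ℕ) (n r : ℕ) : List (ℕ × ℕ × ℕ) → ℕ → ℕ
  | [], K => K
  | e :: l, K => redG fs n r l
      (cond (Nat.blt e.1 n) (cond (Nat.beq (tb r 0) (tb r e.1))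
        (cond (tbit K (walk fs e.2.1 e.2.2 0 e.1 0)) (sbit K e.1) K) K) K)

/-- certificate for the pairs `(0, y)` with the congruence number `r` -/
structure GCert where
  r : ℕ
  y : ℕ
  ws : List (ℕ × ℕ)
  orb : List (ℕ × ℕ)
  red : List (ℕ × ℕ × ℕ)

def gOK (n : ℕ) (fs : List ℕ) (r y : ℕ) (ws orb : List (ℕ × ℕ)) : Bool :=
  cond (Nat.blt y n) (cond (Nat.beq (tb r 0) (tb r y))
    (covG n r (fun z => cond (Nat.beq z 0) true (Nat.beq z y))
      (orbL n fs ws (fun z => cond (Nat.beq z 0) true (Nat.beq z y)) orb 0)) false) false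

/-- the mask of all handled points -/
def allG (n : ℕ) (fs ps : List ℕ) : List GCert → ℕ
  | [] => 0
  | c :: l => cond (Nat.blt c.r ps.length) (cond (gOK n fs (getL ps c.r) c.y c.ws c.orb)
      (Nat.lor (allG n fs ps l) (redG fs n (getL ps c.r) c.red (sbit 0 c.y)))
      (allG n fs ps l)) (allG n fs ps l)

/-- certificate of a join -/
structure JG where
  i : ℕ
  j : ℕ
  r : ℕ
  ws : List (ℕ × ℕ)
  orb : List (ℕ × ℕ)

def joinG (n : ℕ) (fs : List ℕ) (p q r : ℕ) (ws orb : List (ℕ × ℕ)) : Bool :=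
  cond (lep n p r) (cond (lep n q r)
    (covG n r (fun z => cond (Nat.beq (tb p 0) (tb p z)) true (Nat.beq (tb q 0) (tb q z)))
      (orbL n fs ws (fun z => cond (Nat.beq (tb p 0) (tb p z)) true
        (Nat.beq (tb q 0) (tb q z))) orb 0)) false) false

def joinsG (n : ℕ) (fs ps : List ℕ) (js : List JG) : Bool :=
  allN ps.length fun i => allN i fun j =>
    cond (lep n (getL ps i) (getL ps j)) true (cond (lep n (getL ps j) (getL ps i)) true
      (anyL (fun c => cond (Nat.beq c.i i) (cond (Nat.beq c.j j) (cond (Nat.blt c.r ps.length)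
        (joinG n fs (getL ps i) (getL ps j) (getL ps c.r) c.ws c.orb) false) false) false) js))

/-- the first operations are permutations -/
def permOK (n nr : ℕ) (fs hs : List ℕ) : Bool :=
  cond (Nat.ble nr fs.length)
    (allN nr fun i => allN n fun x => Nat.beq (tb (getL hs i) (tb (getL fs i) x)) x) false

/-- transitivity: digits (32 bits) `x`, `i`: the operation number `i` takes `x` to a known point -/
def treeG (n nr : ℕ) (fs : List ℕ) : ℕ → ℕ → ℕ → ℕ
  | 0, _, K => K
  | k + 1, T, K =>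
    treeG n nr fs k (Nat.shiftRight T 32)
      (cond (Nat.blt (Nat.land T 65535) n) (cond (Nat.blt (Nat.land (Nat.shiftRight T 16) 65535) nr)
        (cond (tbit K (tb (getL fs (Nat.land (Nat.shiftRight T 16) 65535)) (Nat.land T 65535)))
          (sbit K (Nat.land T 65535)) K) K) K)

def treeL (n nr : ℕ) (fs : List ℕ) : List (ℕ × ℕ) → ℕ → ℕ
  | [], K => K
  | e :: l, K => treeL n nr fs l (treeG n nr fs e.1 e.2 K)

/-- The complete check of a transitive algebra. -/
def fullG (n nr : ℕ) (fs hs ps : List ℕ) (tr : List (ℕ × ℕ)) (cs : List GCert) (js : List JG)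
    {k : ℕ} (b : Fin k → Fin k → Bool) : Bool :=
  cond (Nat.blt 0 n) (cond (permOK n nr fs hs) (cond (allK n (treeL n nr fs tr (sbit 0 0)))
    (cond (chkB n fs ps) (cond (idt n ps) (cond (mat n ps b)
      (cond (joinsG n fs ps js) (allN n fun y => cond (Nat.beq y 0) true
        (tbit (allG n fs ps cs) y)) false) false) false) false) false) false) false

section

variable {n : ℕ} {fs ps : List ℕ}

theorem wap_ext {θ : Setoid (Fin n)} (hf : ∀ f ∈ fs, ∀ i < n, tb f i < n)
    (hθ : ∀ f ∈ ops n fs, ∀ x y, θ.r x y → θ.r (f x) (f y)) (k T x y : ℕ) (hx : x < n) (hy : y < n)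
    (h : ext θ x y) : wap fs k T x < n ∧ wap fs k T y < n ∧
      ext θ (wap fs k T x) (wap fs k T y) := by
  induction k generalizing T x y with
  | zero => exact ⟨hx, hy, h⟩
  | succ k ih =>
    exact ih _ _ _ (getL_lt hf _ _ hx) (getL_lt hf _ _ hy) (getL_ext hf hθ _ _ _ hx hy h)

theorem walk_ext {θ : Setoid (Fin n)} (hf : ∀ f ∈ fs, ∀ i < n, tb f i < n)
    (hθ : ∀ f ∈ ops n fs, ∀ x y, θ.r x y → θ.r (f x) (f y)) (k T a b c : ℕ) (ha : a < n)
    (hb : b < n) (hc : c < n) (h : ext θ a b) (h0 : ext θ 0 c) :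
    walk fs k T a b c < n ∧ ext θ 0 (walk fs k T a b c) := by
  induction k generalizing T a b c with
  | zero => exact ⟨hc, h0⟩
  | succ k ih =>
    rw [walk]
    cases Nat.beq (Nat.land T 15) 15
    · rw [cond_false]
      exact ih _ _ _ _ (getL_lt hf _ _ ha) (getL_lt hf _ _ hb) hc
        (getL_ext hf hθ _ _ _ ha hb h) h0
    · rw [cond_true]
      cases h1 : Nat.beq c a
      · rw [cond_false]
        cases h2 : Nat.beq c b
        · rw [cond_false]
          exact ih _ _ _ _ ha hb hc h h0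
        · rw [cond_true]
          refine ih _ _ _ _ ha hb ha h ?_
          rw [Nat.eq_of_beq_eq_true h2] at h0
          exact (ext_equiv θ).trans h0 ((ext_equiv θ).symm h)
      · rw [cond_true]
        refine ih _ _ _ _ ha hb hb h ?_
        rw [Nat.eq_of_beq_eq_true h1] at h0
        exact (ext_equiv θ).trans h0 h

theorem orbS_sound {ws : List (ℕ × ℕ)} {c : ℕ → Bool} {θ : Setoid (Fin n)} (hn : 0 < n)
    (hf : ∀ f ∈ fs, ∀ i < n, tb f i < n)
    (hθ : ∀ f ∈ ops n fs, ∀ x y, θ.r x y → θ.r (f x) (f y))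
    (hc : ∀ z < n, c z = true → ext θ 0 z) :
    ∀ (k T Z : ℕ), (∀ z < n, tbit Z z = true → ext θ 0 z) →
      ∀ z < n, tbit (orbS n fs ws c k T Z) z = true → ext θ 0 z := by
  intro k
  induction k with
  | zero => intro T Z h; exact h
  | succ k ih =>
    intro T Z h
    rw [orbS]
    apply ih
    generalize Nat.land T 65535 = x
    generalize (getW ws (Nat.land (Nat.shiftRight T 16) 65535)).1 = l
    generalize (getW ws (Nat.land (Nat.shiftRight T 16) 65535)).2 = w
    cases h1 : Nat.blt x n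
    · exact h
    · rw [cond_true]
      have hx := Nat.blt_eq.mp h1
      cases h2 : (cond (c x) true (tbit Z x))
      · exact h
      · rw [cond_true]
        have h3 : ext θ 0 x := by
          cases h4 : c x
          · rw [h4, cond_false] at h2
            exact h x hx h2
          · exact hc x hx h4
        obtain ⟨h5, h6, h7⟩ := wap_ext hf hθ l w 0 x hn hx h3
        cases h8 : (cond (c (wap fs l w 0)) true (tbit Z (wap fs l w 0)))
        · exact h
        · rw [cond_true]
          have h9 : ext θ 0 (wap fs l w 0) := by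
            cases h4 : c (wap fs l w 0)
            · rw [h4, cond_false] at h8
              exact h _ h5 h8
            · exact hc _ h5 h4
          intro z hz h10
          rcases tbit_sbit h10 with h11 | rfl
          · exact h z hz h11
          · exact (ext_equiv θ).trans h9 h7

theorem orbL_sound {ws : List (ℕ × ℕ)} {c : ℕ → Bool} {θ : Setoid (Fin n)} (hn : 0 < n)
    (hf : ∀ f ∈ fs, ∀ i < n, tb f i < n)
    (hθ : ∀ f ∈ ops n fs, ∀ x y, θ.r x y → θ.r (f x) (f y))
    (hc : ∀ z < n, c z = true → ext θ 0 z) (l : List (ℕ × ℕ)) :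
    ∀ Z : ℕ, (∀ z < n, tbit Z z = true → ext θ 0 z) →
      ∀ z < n, tbit (orbL n fs ws c l Z) z = true → ext θ 0 z := by
  induction l with
  | nil => intro Z h; exact h
  | cons e l ih =>
    intro Z h
    rw [orbL]
    exact ih _ (orbS_sound hn hf hθ hc _ _ _ h)

/-- the block of `0` is below `θ` -/
theorem covG_sound {r : ℕ} {ws orb : List (ℕ × ℕ)} {c : ℕ → Bool} {θ : Setoid (Fin n)}
    (hn : 0 < n) (hf : ∀ f ∈ fs, ∀ i < n, tb f i < n)
    (hθ : ∀ f ∈ ops n fs, ∀ x y, θ.r x y → θ.r (f x) (f y))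
    (hc : ∀ z < n, c z = true → ext θ 0 z)
    (h : covG n r c (orbL n fs ws c orb 0) = true) :
    ∀ z < n, tb r 0 = tb r z → ext θ 0 z := by
  intro z hz hrz
  unfold covG at h
  have h1 := (allN_iff _ _).1 h z hz
  rw [hrz, Nat.beq_refl, cond_true] at h1
  cases h2 : c z
  · rw [h2, cond_false] at h1
    refine orbL_sound hn hf hθ hc orb 0 ?_ z hz h1
    intro z _ h3
    rw [tbit_zero] at h3
    exact absurd h3 (by simp)
  · exact hc z hz h2

/-- `(0, y)` generates at least the block of `0` of `r` -/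
def Qn (n : ℕ) (fs : List ℕ) (r y : ℕ) : Prop :=
  tb r 0 = tb r y ∧ ∀ θ : Setoid (Fin n),
    (∀ f ∈ ops n fs, ∀ x y, θ.r x y → θ.r (f x) (f y)) → ext θ 0 y →
    ∀ z < n, tb r 0 = tb r z → ext θ 0 z

theorem gOK_sound {r y : ℕ} {ws orb : List (ℕ × ℕ)} (hn : 0 < n)
    (hf : ∀ f ∈ fs, ∀ i < n, tb f i < n) (h : gOK n fs r y ws orb = true) :
    y < n ∧ Qn n fs r y := by
  unfold gOK at h
  obtain ⟨h1, h⟩ := cond_and h
  obtain ⟨h2, h⟩ := cond_and h
  refine ⟨Nat.blt_eq.mp h1, Nat.eq_of_beq_eq_true h2, ?_⟩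
  intro θ hθ h0y
  refine covG_sound hn hf hθ ?_ h
  intro z _ h3
  cases h4 : Nat.beq z 0
  · rw [h4, cond_false] at h3
    rw [Nat.eq_of_beq_eq_true h3]
    exact h0y
  · rw [Nat.eq_of_beq_eq_true h4]
    exact Or.inl rfl

theorem redG_sound {r : ℕ} (hn : 0 < n) (hf : ∀ f ∈ fs, ∀ i < n, tb f i < n)
    (l : List (ℕ × ℕ × ℕ)) :
    ∀ K : ℕ, (∀ y < n, tbit K y = true → Qn n fs r y) →
      ∀ y < n, tbit (redG fs n r l K) y = true → Qn n fs r y := by
  induction l with
  | nil => intro K h; exact h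
  | cons e l ih =>
    intro K h
    rw [redG]
    apply ih
    cases h1 : Nat.blt e.1 n
    · exact h
    · rw [cond_true]
      have he := Nat.blt_eq.mp h1
      cases h2 : Nat.beq (tb r 0) (tb r e.1)
      · exact h
      · rw [cond_true]
        cases h3 : tbit K (walk fs e.2.1 e.2.2 0 e.1 0)
        · exact h
        · rw [cond_true]
          intro y hy h4
          rcases tbit_sbit h4 with h5 | rfl
          · exact h y hy h5
          · refine ⟨Nat.eq_of_beq_eq_true h2, ?_⟩
            intro θ hθ h0y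
            obtain ⟨h6, h7⟩ := walk_ext hf hθ e.2.1 e.2.2 0 e.1 0 hn he hn h0y (Or.inl rfl)
            exact (h _ h6 h3).2 θ hθ h7

theorem allG_sound (hn : 0 < n) (hf : ∀ f ∈ fs, ∀ i < n, tb f i < n) (cs : List GCert) :
    ∀ y < n, tbit (allG n fs ps cs) y = true → ∃ r ∈ ps, Qn n fs r y := by
  induction cs with
  | nil =>
    intro y _ h
    rw [allG, tbit_zero] at h
    exact absurd h (by simp)
  | cons c l ih =>
    rw [allG]
    cases h : Nat.blt c.r ps.length
    · exact ih
    · rw [cond_true]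
      cases h2 : gOK n fs (getL ps c.r) c.y c.ws c.orb
      · exact ih
      · rw [cond_true]
        obtain ⟨_, h4⟩ := gOK_sound hn hf h2
        have hm := getL_mem ps c.r (Nat.blt_eq.mp h)
        intro y hy h5
        rcases tbit_lor h5 with h6 | h6
        · exact ih y hy h6
        · refine ⟨_, hm, redG_sound hn hf c.red _ ?_ y hy h6⟩
          intro y _ h7
          rcases tbit_sbit h7 with h8 | rfl
          · rw [tbit_zero] at h8
            exact absurd h8 (by simp)
          · exact h4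

/-- a composition of operations moving `x` to `0`, which preserves and reflects all
congruences -/
def GoodP (n : ℕ) (fs : List ℕ) (x : ℕ) : Prop :=
  ∃ φ : Fin n → Fin n, (∀ hx : x < n, (φ ⟨x, hx⟩ : ℕ) = 0) ∧
    ∀ θ : Setoid (Fin n), (∀ f ∈ ops n fs, ∀ x y, θ.r x y → θ.r (f x) (f y)) →
      ∀ u v, θ.r u v ↔ θ.r (φ u) (φ v)

theorem reflect_perm {f : Fin n → Fin n} (hf : Function.Injective f) {θ : Setoid (Fin n)}
    (hθ : ∀ x y, θ.r x y → θ.r (f x) (f y)) (u v : Fin n) (h : θ.r (f u) (f v)) : θ.r u v := by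
  let e : Equiv.Perm (Fin n) := Equiv.ofBijective f (Finite.injective_iff_bijective.1 hf)
  have he : ∀ x, e x = f x := fun _ => rfl
  have hpow : ∀ (m : ℕ) x y, θ.r x y → θ.r ((e ^ m) x) ((e ^ m) y) := by
    intro m
    induction m with
    | zero => intro x y h; exact h
    | succ m ih =>
      intro x y h
      rw [pow_succ]
      exact ih _ _ (hθ _ _ h)
  have hpos : 0 < orderOf e := orderOf_pos e
  have h1 := hpow (orderOf e - 1) _ _ h
  have h2 : ∀ x, (e ^ (orderOf e - 1)) (f x) = x := by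
    intro x
    have h3 : (e ^ (orderOf e - 1)) (e x) = (e ^ (orderOf e - 1 + 1)) x := by
      rw [pow_succ]
      rfl
    rw [← he, h3, Nat.sub_add_cancel hpos, pow_orderOf_eq_one]
    rfl
  rw [h2, h2] at h1
  exact h1

theorem perm_inj {nr : ℕ} {hs : List ℕ} (hf : ∀ f ∈ fs, ∀ i < n, tb f i < n)
    (h : permOK n nr fs hs = true) (i : ℕ) (hi : i < nr) :
    getL fs i ∈ fs ∧ Function.Injective (opf n (getL fs i)) := by
  unfold permOK at h
  obtain ⟨h1, h⟩ := cond_and h
  have h2 : nr ≤ fs.length := Nat.le_of_ble_eq_true h1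
  have hm := getL_mem fs i (hi.trans_le h2)
  refine ⟨hm, ?_⟩
  have h3 := (allN_iff _ _).1 h i hi
  intro x y hxy
  have h4 := congrArg Fin.val hxy
  rw [opf_val (hf _ hm), opf_val (hf _ hm)] at h4
  have h5 := Nat.eq_of_beq_eq_true ((allN_iff _ _).1 h3 x x.2)
  have h6 := Nat.eq_of_beq_eq_true ((allN_iff _ _).1 h3 y y.2)
  rw [h4, h6] at h5
  exact Fin.ext h5.symm

theorem treeG_sound {nr : ℕ} {hs : List ℕ} (hf : ∀ f ∈ fs, ∀ i < n, tb f i < n)
    (h : permOK n nr fs hs = true) :
    ∀ (k T K : ℕ), (∀ x < n, tbit K x = true → GoodP n fs x) →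
      ∀ x < n, tbit (treeG n nr fs k T K) x = true → GoodP n fs x := by
  intro k
  induction k with
  | zero => intro T K h; exact h
  | succ k ih =>
    intro T K hK
    rw [treeG]
    apply ih
    generalize Nat.land T 65535 = x
    generalize Nat.land (Nat.shiftRight T 16) 65535 = i
    cases h1 : Nat.blt x n
    · exact hK
    · rw [cond_true]
      cases h2 : Nat.blt i nr
      · exact hK
      · rw [cond_true]
        cases h3 : tbit K (tb (getL fs i) x)
        · exact hK
        · rw [cond_true]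
          have hx := Nat.blt_eq.mp h1
          have hi := Nat.blt_eq.mp h2
          obtain ⟨hm, hinj⟩ := perm_inj hf h i hi
          intro z hz h4
          rcases tbit_sbit h4 with h5 | rfl
          · exact hK z hz h5
          · have hlt := hf _ hm z hz
            obtain ⟨φ, h6, h7⟩ := hK _ hlt h3
            refine ⟨fun u => φ (opf n (getL fs i) u), ?_, ?_⟩
            · intro hz'
              have e : opf n (getL fs i) ⟨z, hz'⟩ = ⟨tb (getL fs i) z, hlt⟩ :=
                Fin.ext (opf_val (hf _ hm) _)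
              show (φ (opf n (getL fs i) ⟨z, hz'⟩) : ℕ) = 0
              rw [e]
              exact h6 hlt
            · intro θ hθ u v
              have hop : ∀ x y, θ.r x y → θ.r (opf n (getL fs i) x) (opf n (getL fs i) y) :=
                hθ _ ⟨_, hm, rfl⟩
              constructor
              · intro huv
                exact (h7 θ hθ _ _).1 (hop _ _ huv)
              · intro huv
                exact reflect_perm hinj hop _ _ ((h7 θ hθ _ _).2 huv)

theorem treeL_sound {nr : ℕ} {hs : List ℕ} (hf : ∀ f ∈ fs, ∀ i < n, tb f i < n)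
    (h : permOK n nr fs hs = true) (l : List (ℕ × ℕ)) :
    ∀ K : ℕ, (∀ x < n, tbit K x = true → GoodP n fs x) →
      ∀ x < n, tbit (treeL n nr fs l K) x = true → GoodP n fs x := by
  induction l with
  | nil => intro K h; exact h
  | cons e l ih =>
    intro K hK
    rw [treeL]
    exact ih _ (treeG_sound hf h _ _ _ hK)

/-- from the block of `0` to the whole relation -/
theorem le_of_block {r : ℕ} {θ : Setoid (Fin n)} (hn : 0 < n)
    (hgood : ∀ x < n, GoodP n fs x)
    (hr : ∀ f ∈ ops n fs, ∀ x y, (rel n r).r x y → (rel n r).r (f x) (f y))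
    (hθ : ∀ f ∈ ops n fs, ∀ x y, θ.r x y → θ.r (f x) (f y))
    (h : ∀ z < n, tb r 0 = tb r z → ext θ 0 z) : rel n r ≤ θ := by
  intro u v huv
  obtain ⟨φ, h1, h2⟩ := hgood u u.2
  have h3 : φ u = ⟨0, hn⟩ := Fin.ext (h1 u.2)
  have h4 := (h2 (rel n r) hr u v).1 huv
  rw [h3] at h4
  have h5 := h (φ v) (φ v).2 h4
  have h6 : θ.r (φ u) (φ v) := by
    rw [h3]
    exact (ext_iff θ ⟨0, hn⟩ (φ v)).1 h5
  exact (h2 θ hθ u v).2 h6

/-- Main step with joins among congruences only. -/
theorem rep_of_pairsG {k : ℕ} {b : Fin k → Fin k → Bool} (hn : 0 < n)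
    (hB : chkB n fs ps = true) (hJ : ∀ p ∈ ps, ∀ q ∈ ps, ∃ r ∈ ps, rel n p ≤ rel n r ∧
      rel n q ≤ rel n r ∧ ∀ θ : Setoid (Fin n),
        (∀ f ∈ ops n fs, ∀ x y, θ.r x y → θ.r (f x) (f y)) →
        rel n p ≤ θ → rel n q ≤ θ → rel n r ≤ θ)
    (hne : ∃ p0 ∈ ps, ∀ i < n, tb p0 i = i)
    (hO : chkO n ps b)
    (hinj : ∀ s t : Fin k, b s t = true → b t s = true → s = t)
    (hP : ∀ x y : Fin n, ∃ r ∈ ps, (rel n r).r x y ∧ ∀ θ : Setoid (Fin n),
      (∀ f ∈ ops n fs, ∀ x y, θ.r x y → θ.r (f x) (f y)) → θ.r x y → rel n r ≤ θ) :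
    Representable (FinB b) := by
  obtain ⟨hf, hb, hc⟩ := chkB_iff hB
  obtain ⟨hk, hO⟩ := hO
  have : NeZero n := ⟨hn.ne'⟩
  have hmem : ∀ t : Fin k, ps.get (t.cast hk.symm) ∈ ps := fun t => List.get_mem _ _
  let c : FinB b → {r : Setoid (Fin n) // ∀ f ∈ ops n fs, ∀ x y : Fin n, r.r x y → r.r (f x) (f y)} :=
    fun t => ⟨rel n (ps.get (Fin.cast hk.symm t)), rel_compat hf fun f hf' =>
      hc f hf' _ (hmem t)⟩
  have hle : ∀ s t : FinB b, c s ≤ c t ↔ s ≤ t := by
    intro s t
    show rel n _ ≤ rel n _ ↔ b s t = true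
    rw [hO s t]
    exact (lep_iff _ _ (hb _ (hmem s))).symm
  have hsurj : Function.Surjective c := by
    rintro ⟨θ, hθ⟩
    have key : ∀ l : List ℕ, (∀ p ∈ l, p ∈ ps) → ∃ m ∈ ps, rel n m ≤ θ ∧
        ∀ p ∈ l, rel n p ≤ θ → rel n p ≤ rel n m := by
      intro l
      induction l with
      | nil =>
        intro _
        obtain ⟨p0, hp0, h0⟩ := hne
        refine ⟨p0, hp0, ?_, by simp⟩
        intro i j hij
        have h1 : tb p0 i = tb p0 j := hij
        rw [h0 i i.2, h0 j j.2] at h1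
        rw [Fin.ext h1]
      | cons p l ih =>
        intro hl
        obtain ⟨m, hm, hmθ, hml⟩ := ih fun q hq => hl q (List.mem_cons_of_mem _ hq)
        by_cases hpθ : rel n p ≤ θ
        · obtain ⟨r, hr, h1, h2, h3⟩ := hJ p (hl p (List.mem_cons_self ..)) m hm
          refine ⟨r, hr, h3 θ hθ hpθ hmθ, ?_⟩
          intro q hq hqθ
          rcases List.mem_cons.1 hq with rfl | hq
          · exact h1
          · exact (hml q hq hqθ).trans h2
        · refine ⟨m, hm, hmθ, ?_⟩
          intro q hq hqθ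
          rcases List.mem_cons.1 hq with rfl | hq
          · exact absurd hqθ hpθ
          · exact hml q hq hqθ
    obtain ⟨m, hm, hmθ, hmax⟩ := key ps fun _ h => h
    have hθm : θ ≤ rel n m := by
      intro x y hxy
      obtain ⟨r, hr, h1, h2⟩ := hP x y
      exact hmax r hr (h2 θ hθ hxy) h1
    obtain ⟨t, ht⟩ := List.get_of_mem hm
    refine ⟨(t.cast hk : Fin k), Subtype.ext ?_⟩
    show rel n (ps.get (Fin.cast hk.symm (t.cast hk))) = θ
    have : Fin.cast hk.symm (t.cast hk) = t := rfl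
    rw [this, ht]
    exact le_antisymm hmθ hθm
  have hinj' : Function.Injective c := by
    intro s t hst
    exact hinj s t ((hle s t).1 hst.le) ((hle t s).1 hst.ge)
  exact rep_unary (Fin n) (ops n fs) ⟨Equiv.ofBijective c ⟨hinj', hsurj⟩, hle _ _⟩

theorem rep_fullG {nr : ℕ} {hs : List ℕ} {tr : List (ℕ × ℕ)} {cs : List GCert} {js : List JG}
    {k : ℕ} {b : Fin k → Fin k → Bool}
    (hinj : ∀ s t : Fin k, b s t = true → b t s = true → s = t)
    (h : fullG n nr fs hs ps tr cs js b = true) : Representable (FinB b) := by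
  unfold fullG at h
  obtain ⟨h0, h⟩ := cond_and h
  obtain ⟨hPe, h⟩ := cond_and h
  obtain ⟨hT, h⟩ := cond_and h
  obtain ⟨hB, h⟩ := cond_and h
  obtain ⟨hI, h⟩ := cond_and h
  obtain ⟨hM, h⟩ := cond_and h
  obtain ⟨hJ, hA⟩ := cond_and h
  obtain ⟨hf, hb, hc⟩ := chkB_iff hB
  have hn : 0 < n := Nat.blt_eq.mp h0
  have hne := idt_sound hI
  have hgood : ∀ x < n, GoodP n fs x := by
    intro x hx
    unfold allK at hT
    refine treeL_sound hf hPe tr (sbit 0 0) ?_ x hx ((allN_iff _ _).1 hT x hx)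
    intro x _ h1
    rcases tbit_sbit h1 with h2 | rfl
    · rw [tbit_zero] at h2
      exact absurd h2 (by simp)
    · exact ⟨id, fun _ => rfl, fun _ _ _ _ => Iff.rfl⟩
  have hcomp : ∀ p ∈ ps, ∀ f ∈ ops n fs, ∀ x y, (rel n p).r x y → (rel n p).r (f x) (f y) :=
    fun p hp => rel_compat hf fun f hf' => hc f hf' p hp
  -- joins
  have key : ∀ i < ps.length, ∀ j < i, ∃ r ∈ ps, rel n (getL ps i) ≤ rel n r ∧
      rel n (getL ps j) ≤ rel n r ∧ ∀ θ : Setoid (Fin n),
        (∀ f ∈ ops n fs, ∀ x y, θ.r x y → θ.r (f x) (f y)) → rel n (getL ps i) ≤ θ →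
        rel n (getL ps j) ≤ θ → rel n r ≤ θ := by
    intro i hi j hj
    have hpi := getL_mem ps i hi
    have hpj := getL_mem ps j (hj.trans hi)
    have h1 := (allN_iff _ _).1 ((allN_iff _ _).1 hJ i hi) j hj
    cases h2 : lep n (getL ps i) (getL ps j)
    · rw [h2, cond_false] at h1
      cases h3 : lep n (getL ps j) (getL ps i)
      · rw [h3, cond_false] at h1
        obtain ⟨c, _, h4⟩ := (anyL_iff _ _).1 h1
        obtain ⟨_, h4⟩ := cond_and h4
        obtain ⟨_, h4⟩ := cond_and h4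
        obtain ⟨h5, h4⟩ := cond_and h4
        have hr := getL_mem ps c.r (Nat.blt_eq.mp h5)
        unfold joinG at h4
        obtain ⟨h6, h4⟩ := cond_and h4
        obtain ⟨h7, h4⟩ := cond_and h4
        refine ⟨_, hr, (lep_iff _ _ (hb _ hpi)).1 h6, (lep_iff _ _ (hb _ hpj)).1 h7, ?_⟩
        intro θ hθ h8 h9
        refine le_of_block hn hgood (hcomp _ hr) hθ ?_
        refine covG_sound hn hf hθ ?_ h4
        intro z hz h10
        cases h11 : Nat.beq (tb (getL ps i) 0) (tb (getL ps i) z)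
        · rw [h11, cond_false] at h10
          exact Or.inr ⟨hn, hz, h9 (show (rel n (getL ps j)).r ⟨0, hn⟩ ⟨z, hz⟩ from
            Nat.eq_of_beq_eq_true h10)⟩
        · exact Or.inr ⟨hn, hz, h8 (show (rel n (getL ps i)).r ⟨0, hn⟩ ⟨z, hz⟩ from
            Nat.eq_of_beq_eq_true h11)⟩
      · exact ⟨_, hpi, le_rfl, (lep_iff _ _ (hb _ hpj)).1 h3, fun θ _ h4 _ => h4⟩
    · exact ⟨_, hpj, (lep_iff _ _ (hb _ hpi)).1 h2, le_rfl, fun θ _ _ h4 => h4⟩
  refine rep_of_pairsG hn hB ?_ hne (mat_sound hM) hinj ?_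
  · intro p hp q hq
    obtain ⟨s, hs⟩ := List.get_of_mem hp
    obtain ⟨t, ht⟩ := List.get_of_mem hq
    have es : p = getL ps s := by rw [getL_eq ps s s.2]; exact hs.symm
    have et : q = getL ps t := by rw [getL_eq ps t t.2]; exact ht.symm
    rcases Nat.lt_trichotomy (s : ℕ) (t : ℕ) with hst | hst | hst
    · obtain ⟨r, hr, h1, h2, h3⟩ := key t t.2 s hst
      rw [es, et]
      exact ⟨r, hr, h2, h1, fun θ hθ h4 h5 => h3 θ hθ h5 h4⟩
    · refine ⟨p, hp, le_rfl, ?_, fun θ _ h4 _ => h4⟩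
      rw [es, et, hst]
    · obtain ⟨r, hr, h1, h2, h3⟩ := key s s.2 t hst
      rw [es, et]
      exact ⟨r, hr, h1, h2, h3⟩
  · intro x y
    obtain ⟨φ, h1, h2⟩ := hgood x x.2
    have hx0 : φ x = ⟨0, hn⟩ := Fin.ext (h1 x.2)
    have h3 := (allN_iff _ _).1 hA (φ y) (φ y).2
    cases h4 : Nat.beq (φ y : ℕ) 0
    · rw [h4, cond_false] at h3
      obtain ⟨r, hr, h5, h6⟩ := allG_sound hn hf cs _ (φ y).2 h3
      refine ⟨r, hr, ?_, ?_⟩
      · refine (h2 (rel n r) (hcomp r hr) x y).2 ?_
        rw [hx0]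
        exact h5
      · intro θ hθ hxy
        refine le_of_block hn hgood (hcomp r hr) hθ ?_
        refine h6 θ hθ ?_
        have h7 := (h2 θ hθ x y).1 hxy
        rw [hx0] at h7
        exact Or.inr ⟨hn, (φ y).2, h7⟩
    · obtain ⟨p0, hp0, h0⟩ := hne
      have hy0 : φ y = ⟨0, hn⟩ := Fin.ext (Nat.eq_of_beq_eq_true h4)
      refine ⟨p0, hp0, ?_, ?_⟩
      · refine (h2 (rel n p0) (hcomp p0 hp0) x y).2 ?_
        rw [hx0, hy0]
      · intro θ _ _ i j hij
        have h1 : tb p0 i = tb p0 j := hij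
        rw [h0 i i.2, h0 j j.2] at h1
        rw [Fin.ext h1]

end

end Pool.Agent.Helper71.SL
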