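import Pool.Agent.Helper71.SL.Pat

/-!
# Classification of the lattices with at most seven elements

Every lattice with `k <= 7` elements is isomorphic to one of the listed patterns. A natural
labelling (a linear extension) gives a list of Booleans; one kernel computation runs over all lists
and compares with a table.
-/

set_option autoImplicit false

namespace Pool.Agent.Helper71.SL

open Pool.Agent.H33WL

/-- a property of all lists of Booleans of length `n` -/
def allB : ℕ → (List Bool → Bool) → Bool
  | 0, p => p []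
  | n + 1, p => cond (allB n fun l => p (true :: l)) (allB n fun l => p (false :: l)) false

theorem allB_iff (n : ℕ) (p : List Bool → Bool) :
    allB n p = true ↔ ∀ l : List Bool, l.length = n → p l = true := by
  induction n generalizing p with
  | zero =>
    simp only [allB]
    constructor
    · intro h l hl
      rw [List.length_eq_zero_iff.1 hl]
      exact h
    · intro h
      exact h [] rfl
  | succ n ih =>
    simp only [allB]
    constructor
    · intro h l hl
      obtain ⟨h1, h2⟩ := cond_and h
      cases l with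
      | nil => simp at hl
      | cons b l =>
        have hl' : l.length = n := by simpa using hl
        cases b
        · exact (ih _).1 h2 l hl'
        · exact (ih _).1 h1 l hl'
    · intro h
      have h1 : (allB n fun l => p (true :: l)) = true :=
        (ih _).2 fun l hl => h (true :: l) (by simp [hl])
      have h2 : (allB n fun l => p (false :: l)) = true :=
        (ih _).2 fun l hl => h (false :: l) (by simp [hl])
      rw [h1, h2]
      rfl

theorem beq_false_iff {a b : ℕ} : Nat.beq a b = false ↔ a ≠ b := by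
  constructor
  · rintro h rfl
    rw [Nat.beq_refl] at h
    exact absurd h (by simp)
  · intro h
    cases h2 : Nat.beq a b
    · rfl
    · exact absurd (Nat.eq_of_beq_eq_true h2) h

/-- bounded search -/
def exN : ℕ → (ℕ → Bool) → Bool
  | 0, _ => false
  | n + 1, p => cond (p n) true (exN n p)

theorem exN_iff (n : ℕ) (p : ℕ → Bool) : exN n p = true ↔ ∃ i < n, p i = true := by
  induction n with
  | zero => simp [exN]
  | succ n ih =>
    simp only [exN]
    cases h : p n
    · simp only [cond_false, ih]
      constructor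
      · rintro ⟨i, hi, h1⟩
        exact ⟨i, Nat.lt_succ_of_lt hi, h1⟩
      · rintro ⟨i, hi, h1⟩
        rcases Nat.lt_succ_iff_lt_or_eq.1 hi with h2 | rfl
        · exact ⟨i, h2, h1⟩
        · rw [h] at h1
          exact absurd h1 (by simp)
    · simp only [cond_true, true_iff]
      exact ⟨n, Nat.lt_succ_self n, h⟩

/-- the pattern is transitive and has joins -/
def isLat (k : ℕ) (l : List Bool) : Bool :=
  cond (allN k fun i => allN k fun j => allN k fun m =>
    cond (patN k l i j) (cond (patN k l j m) (patN k l i m) true) true)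
  (allN k fun i => allN k fun j => exN k fun s =>
    cond (patN k l i s) (cond (patN k l j s) (allN k fun t =>
      cond (patN k l i t) (cond (patN k l j t) (patN k l s t) true) true) false) false) false

/-- binary value -/
def val : List Bool → ℕ
  | [] => 0
  | b :: l => Nat.add (Nat.mul 2 (val l)) (cond b 1 0)

def nthL : List (List Bool) → ℕ → List Bool
  | [], _ => []
  | x :: _, 0 => x
  | _ :: l, i + 1 => nthL l i

/-- equality of Booleans -/
def eqB (a b : Bool) : Bool := cond a b (cond b false true)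

theorem eqB_iff {a b : Bool} (h : eqB a b = true) : a = b := by
  cases a <;> cases b <;> simp_all [eqB]

/-- the entry `(v, r, p)` identifies the pattern `l` with the pattern number `r` -/
def hit (k : ℕ) (reps : List (List Bool)) (l : List Bool) (v : ℕ) (e : ℕ × ℕ × ℕ) : Bool :=
  cond (Nat.beq e.1 v) (cond (Nat.blt e.2.1 reps.length)
    (allN k fun i => cond (Nat.blt (tb e.2.2 i) k) (allN k fun j =>
      eqB (patN k l (tb e.2.2 i) (tb e.2.2 j)) (patN k (nthL reps e.2.1) i j)) false) false) false

/-- the classification check -/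
def cls (k n : ℕ) (reps : List (List Bool)) (t : List (ℕ × ℕ × ℕ)) : Bool :=
  allB n fun l => cond (isLat k l) (anyL (hit k reps l (val l)) t) true

theorem patN_antisymm {k : ℕ} {l : List Bool} {i j : ℕ} (hi : i < k) (hj : j < k)
    (h1 : patN k l i j = true) (h2 : patN k l j i = true) : i = j := by
  by_contra hne
  have key : ∀ a b : ℕ, a < k → b < k → a < b → patN k l b a ≠ true := by
    intro a b ha hb hab h
    unfold patN at h
    have e1 : Nat.beq b a = false := by
      rw [beq_false_iff]
      omega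
    have e2 : Nat.beq b 0 = false := by
      rw [beq_false_iff]
      omega
    have e3 : Nat.beq (a + 1) k = false := by
      rw [beq_false_iff]
      omega
    have e4 : Nat.blt b a = false := by
      rw [Bool.eq_false_iff]
      intro h
      have := Nat.blt_eq.mp h
      omega
    rw [e1, e2, e3, e4] at h
    simp only [cond_false] at h
    cases h5 : Nat.beq (b + 1) k
    · rw [h5] at h; simp at h
    · rw [h5] at h; simp at h
  rcases Nat.lt_or_gt_of_ne hne with h | h
  · exact key i j hi hj h h2
  · exact key j i hj hi h h1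

theorem nthL_mem (l : List (List Bool)) (i : ℕ) (h : i < l.length) : nthL l i ∈ l := by
  induction l generalizing i with
  | nil => simp at h
  | cons x l ih =>
    cases i with
    | zero => exact List.mem_cons_self ..
    | succ i => exact List.mem_cons_of_mem _ (ih i (by simpa using h))

theorem cls_sound {k n : ℕ} {reps : List (List Bool)} {t : List (ℕ × ℕ × ℕ)}
    (h : cls k n reps t = true) (hr : ∀ r ∈ reps, Representable (FinB (pat k r)))
    (l : List Bool) (hl : l.length = n) (hlat : isLat k l = true) :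
    Representable (FinB (pat k l)) := by
  have h1 := (allB_iff _ _).1 h l hl
  rw [hlat, cond_true] at h1
  obtain ⟨e, _, h2⟩ := (anyL_iff _ _).1 h1
  unfold hit at h2
  obtain ⟨_, h2⟩ := cond_and h2
  obtain ⟨h3, h2⟩ := cond_and h2
  have h4 : ∀ i < k, tb e.2.2 i < k ∧ ∀ j < k,
      patN k l (tb e.2.2 i) (tb e.2.2 j) = patN k (nthL reps e.2.1) i j := by
    intro i hi
    obtain ⟨h5, h6⟩ := cond_and ((allN_iff _ _).1 h2 i hi)
    exact ⟨Nat.blt_eq.mp h5, fun j hj => eqB_iff ((allN_iff _ _).1 h6 j hj)⟩
  let π : Fin k → Fin k := fun i => ⟨tb e.2.2 i, (h4 i i.2).1⟩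
  have hπ : ∀ i j, pat k l (π i) (π j) = pat k (nthL reps e.2.1) i j :=
    fun i j => (h4 i i.2).2 j j.2
  refine rep_of_tab π ?_ hπ (hr _ (nthL_mem _ _ (Nat.blt_eq.mp h3)))
  intro i j hij
  have h5 : pat k (nthL reps e.2.1) i j = true := by
    rw [← hπ, hij]
    show patN k l (π j) (π j) = true
    unfold patN
    rw [Nat.beq_refl]
    rfl
  have h6 : pat k (nthL reps e.2.1) j i = true := by
    rw [← hπ, hij]
    show patN k l (π j) (π j) = true
    unfold patN
    rw [Nat.beq_refl]
    rfl
  exact Fin.ext (patN_antisymm i.2 j.2 h5 h6)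

/-- positions of the upper triangle -/
def tri : ℕ → List (ℕ × ℕ)
  | 4 => [(1, 2)]
  | 5 => [(1, 2), (1, 3), (2, 3)]
  | 6 => [(1, 2), (1, 3), (1, 4), (2, 3), (2, 4), (3, 4)]
  | 7 => [(1, 2), (1, 3), (1, 4), (1, 5), (2, 3), (2, 4), (2, 5), (3, 4), (3, 5), (4, 5)]
  | _ => []

theorem tri_pos (k : ℕ) (hk : k ≤ 7) (f : ℕ × ℕ → Bool) (i j : ℕ) (hi : 1 ≤ i) (hij : i < j)
    (hj : j + 1 < k) : getB ((tri k).map f) (pos k i j) = f (i, j) := by
  have h1 : j ≤ 5 := by omega
  have h2 : i ≤ 4 := by omega
  have h3 : 4 ≤ k := by omega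
  interval_cases k <;> interval_cases j <;> first | omega | (interval_cases i <;> first | omega | rfl)

theorem exists_label (L : Type) [Lattice L] [Finite L] (k : ℕ) (hk : Nat.card L = k) :
    ∃ e : Fin k ≃ L, ∀ i j, e i ≤ e j → i ≤ j := by
  classical
  have : Fintype (LinearExtension L) := Fintype.ofFinite L
  have hc : Fintype.card (LinearExtension L) = k := by
    rw [← Nat.card_eq_fintype_card]
    exact hk
  let o : Fin k ≃o LinearExtension L := Fintype.orderIsoFinOfCardEq _ hc
  refine ⟨o.toEquiv, ?_⟩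
  intro i j h
  have h1 : (toLinearExtension (o i : L) : LinearExtension L) ≤ toLinearExtension (o j : L) :=
    toLinearExtension.monotone h
  exact o.le_iff_le.1 h1

theorem exists_pat (L : Type) [Lattice L] [Finite L] (k : ℕ) (hk : Nat.card L = k) (h0 : 0 < k)
    (h7 : k ≤ 7) : ∃ l : List Bool, l.length = (tri k).length ∧ isLat k l = true ∧
      Nonempty (FinB (pat k l) ≃o L) := by
  classical
  obtain ⟨e, he⟩ := exists_label L k hk
  let f : ℕ × ℕ → Bool := fun q => if h : q.1 < k ∧ q.2 < k then
    decide (e ⟨q.1, h.1⟩ ≤ e ⟨q.2, h.2⟩) else false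
  have hf : ∀ i j (hi : i < k) (hj : j < k), f (i, j) = decide (e ⟨i, hi⟩ ≤ e ⟨j, hj⟩) :=
    fun i j hi hj => dif_pos ⟨hi, hj⟩
  -- bottom and top
  have hbot : ∀ x : L, e ⟨0, h0⟩ ≤ x := by
    intro x
    have h1 : e ⟨0, h0⟩ ⊓ x ≤ e ⟨0, h0⟩ := inf_le_left
    rw [← e.apply_symm_apply (e ⟨0, h0⟩ ⊓ x)] at h1
    have h2 := he _ _ h1
    have h3 : e.symm (e ⟨0, h0⟩ ⊓ x) = ⟨0, h0⟩ := by
      apply Fin.ext
      have : ((e.symm (e ⟨0, h0⟩ ⊓ x) : Fin k) : ℕ) ≤ 0 := h2
      show ((e.symm (e ⟨0, h0⟩ ⊓ x) : Fin k) : ℕ) = 0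
      omega
    have h4 : e ⟨0, h0⟩ ⊓ x = e ⟨0, h0⟩ := by
      have h5 := congrArg e h3
      rwa [e.apply_symm_apply] at h5
    rw [← h4]
    exact inf_le_right
  have hlt : k - 1 < k := by omega
  have htop : ∀ x : L, x ≤ e ⟨k - 1, hlt⟩ := by
    intro x
    have h1 : e ⟨k - 1, hlt⟩ ≤ e ⟨k - 1, hlt⟩ ⊔ x := le_sup_left
    rw [← e.apply_symm_apply (e ⟨k - 1, hlt⟩ ⊔ x)] at h1
    have h2 := he _ _ h1
    have h3 : e.symm (e ⟨k - 1, hlt⟩ ⊔ x) = ⟨k - 1, hlt⟩ := by
      apply Fin.ext
      have h4 : k - 1 ≤ ((e.symm (e ⟨k - 1, hlt⟩ ⊔ x) : Fin k) : ℕ) := h2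
      have h5 := (e.symm (e ⟨k - 1, hlt⟩ ⊔ x)).2
      show ((e.symm (e ⟨k - 1, hlt⟩ ⊔ x) : Fin k) : ℕ) = k - 1
      omega
    have h4 : e ⟨k - 1, hlt⟩ ⊔ x = e ⟨k - 1, hlt⟩ := by
      have h5 := congrArg e h3
      rwa [e.apply_symm_apply] at h5
    rw [← h4]
    exact le_sup_right
  have hpat : ∀ i j (hi : i < k) (hj : j < k),
      patN k ((tri k).map f) i j = decide (e ⟨i, hi⟩ ≤ e ⟨j, hj⟩) := by
    intro i j hi hj
    unfold patN
    by_cases h1 : i = j
    · subst h1
      rw [Nat.beq_refl, cond_true]
      simp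
    have e1 : Nat.beq i j = false := by
      rw [beq_false_iff]; exact h1
    rw [e1, cond_false]
    by_cases h2 : i = 0
    · subst h2
      rw [Nat.beq_refl, cond_true]
      simp [hbot]
    have e2 : Nat.beq i 0 = false := by
      rw [beq_false_iff]; exact h2
    rw [e2, cond_false]
    by_cases h3 : j + 1 = k
    · rw [h3, Nat.beq_refl, cond_true]
      have h4 : (⟨j, hj⟩ : Fin k) = ⟨k - 1, hlt⟩ := Fin.ext (by show j = k - 1; omega)
      rw [h4]
      simp [htop]
    have e3 : Nat.beq (j + 1) k = false := by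
      rw [beq_false_iff]; exact h3
    rw [e3, cond_false]
    by_cases h4 : i + 1 = k
    · rw [h4, Nat.beq_refl, cond_true]
      symm
      rw [decide_eq_false_iff_not]
      intro h5
      have h6 : i ≤ j := he _ _ h5
      omega
    have e4 : Nat.beq (i + 1) k = false := by
      rw [beq_false_iff]; exact h4
    rw [e4, cond_false]
    by_cases h5 : i < j
    · have e5 : Nat.blt i j = true := Nat.blt_eq.mpr h5
      rw [e5, cond_true, tri_pos k h7 f i j (by omega) h5 (by omega)]
      exact hf i j hi hj
    · have e5 : Nat.blt i j = false := by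
        rw [Bool.eq_false_iff]
        intro h
        exact h5 (Nat.blt_eq.mp h)
      rw [e5, cond_false]
      symm
      rw [decide_eq_false_iff_not]
      intro h6
      have h7 : i ≤ j := he _ _ h6
      omega
  refine ⟨(tri k).map f, by simp, ?_, ?_⟩
  · unfold isLat
    have h1 : (allN k fun i => allN k fun j => allN k fun m =>
        cond (patN k ((tri k).map f) i j) (cond (patN k ((tri k).map f) j m)
          (patN k ((tri k).map f) i m) true) true) = true := by
      refine (allN_iff _ _).2 fun i hi => (allN_iff _ _).2 fun j hj => (allN_iff _ _).2 fun m hm => ?_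
      rw [hpat i j hi hj, hpat j m hj hm, hpat i m hi hm]
      by_cases h1 : e ⟨i, hi⟩ ≤ e ⟨j, hj⟩
      · by_cases h2 : e ⟨j, hj⟩ ≤ e ⟨m, hm⟩
        · simp [h1, h2, h1.trans h2]
        · simp [h1, h2]
      · simp [h1]
    rw [h1, cond_true]
    refine (allN_iff _ _).2 fun i hi => (allN_iff _ _).2 fun j hj => (exN_iff _ _).2 ?_
    refine ⟨e.symm (e ⟨i, hi⟩ ⊔ e ⟨j, hj⟩), Fin.is_lt _, ?_⟩
    rw [hpat i _ hi (Fin.is_lt _), hpat j _ hj (Fin.is_lt _)]
    simp only [Fin.eta, Equiv.apply_symm_apply, le_sup_left, le_sup_right, decide_true, cond_true]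
    refine (allN_iff _ _).2 fun t ht => ?_
    rw [hpat i t hi ht, hpat j t hj ht, hpat _ t (Fin.is_lt _) ht]
    simp only [Fin.eta, Equiv.apply_symm_apply]
    by_cases h1 : e ⟨i, hi⟩ ≤ e ⟨t, ht⟩
    · by_cases h2 : e ⟨j, hj⟩ ≤ e ⟨t, ht⟩
      · simp [h1, h2]
      · simp [h1, h2]
    · simp [h1]
  · have key : ∀ i j : Fin k, e i ≤ e j ↔ patN k ((tri k).map f) i j = true := by
      intro i j
      rw [hpat i j i.2 j.2]
      simp
    exact ⟨{ toEquiv := e
             map_rel_iff' := by
               intro i j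
               exact key i j }⟩

/-- Reduction to the listed patterns. -/
theorem rep_of_cls (L : Type) [Lattice L] [Finite L] (k : ℕ) (hk : Nat.card L = k) (h0 : 0 < k)
    (h7 : k ≤ 7) {reps : List (List Bool)} {t : List (ℕ × ℕ × ℕ)}
    (h : cls k (tri k).length reps t = true)
    (hr : ∀ r ∈ reps, Representable (FinB (pat k r))) : Representable L := by
  obtain ⟨l, hl, hlat, ⟨e⟩⟩ := exists_pat L k hk h0 h7
  exact rep_of_iso e (cls_sound h hr l hl hlat)

end Pool.Agent.Helper71.SL
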