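import Pool.Agent.Helper71.SL.Dual

/-!
# Ordinal sums

If `c` is comparable to all elements of `L` and the intervals below and above `c` are
representable, then `L` is representable (McKenzie). If the interval below is the congruence lattice
of `(X, F)` and the interval above that of `(Y, G)`, take `Y × X` with the operations
`(y, x) ↦ (y, f x)`, `(y, x) ↦ (g y, x)`, `(y, x) ↦ (y', x)` and the maps taking one fibre to a point
and the other fibres to another point of the same fibre.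
-/

set_option autoImplicit false

namespace Pool.Agent.Helper71.SL

open Pool.Agent.H33WL

section

variable {X Y : Type}

/-- the operations on `Y × X` -/
def cops (F : Set (X → X)) (G : Set (Y → Y)) : Set (Y × X → Y × X) :=
  {φ | (∃ f ∈ F, φ = fun z => (z.1, f z.2)) ∨ (∃ g ∈ G, φ = fun z => (g z.1, z.2)) ∨
    (∃ y : Y, φ = fun z => (y, z.2)) ∨
    ∃ (S : Y → Prop) (y : Y) (u v : X), (∀ z, S z.1 → φ z = (y, u)) ∧ ∀ z, ¬ S z.1 → φ z = (y, v)}

/-- the lower congruences -/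
def lowC (r : Setoid X) : Setoid (Y × X) where
  r z w := z.1 = w.1 ∧ r.r z.2 w.2
  iseqv := ⟨fun z => ⟨rfl, r.refl _⟩, fun h => ⟨h.1.symm, r.symm h.2⟩,
    fun h h' => ⟨h.1.trans h'.1, r.trans h.2 h'.2⟩⟩

/-- the upper congruences -/
def upC (s : Setoid Y) : Setoid (Y × X) where
  r z w := s.r z.1 w.1
  iseqv := ⟨fun z => s.refl _, fun h => s.symm h, fun h h' => s.trans h h'⟩

theorem lowC_compat {F : Set (X → X)} {G : Set (Y → Y)} {r : Setoid X}
    (hr : ∀ f ∈ F, ∀ x y, r.r x y → r.r (f x) (f y)) :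
    ∀ φ ∈ cops F G, ∀ z w, (lowC (Y := Y) r).r z w → (lowC (Y := Y) r).r (φ z) (φ w) := by
  rintro φ hφ z w ⟨h1, h2⟩
  rcases hφ with ⟨f, hf, rfl⟩ | ⟨g, hg, rfl⟩ | ⟨y, rfl⟩ | ⟨S, y, u, v, hu, hv⟩
  · exact ⟨h1, hr f hf _ _ h2⟩
  · exact ⟨congrArg g h1, h2⟩
  · exact ⟨rfl, h2⟩
  · by_cases hS : S z.1
    · rw [hu z hS, hu w (h1 ▸ hS)]
    · rw [hv z hS, hv w (h1 ▸ hS)]

theorem upC_compat {F : Set (X → X)} {G : Set (Y → Y)} {s : Setoid Y}
    (hs : ∀ g ∈ G, ∀ x y, s.r x y → s.r (g x) (g y)) :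
    ∀ φ ∈ cops F G, ∀ z w, (upC (X := X) s).r z w → (upC (X := X) s).r (φ z) (φ w) := by
  rintro φ hφ z w h
  rcases hφ with ⟨f, hf, rfl⟩ | ⟨g, hg, rfl⟩ | ⟨y, rfl⟩ | ⟨S, y, u, v, hu, hv⟩
  · exact h
  · exact hs g hg _ _ h
  · exact s.refl _
  · have h1 : ∀ z, (φ z).1 = y := by
      intro z
      by_cases hS : S z.1
      · rw [hu z hS]
      · rw [hv z hS]
    show s.r (φ z).1 (φ w).1
    rw [h1, h1]

/-- every congruence is a lower or an upper one -/
theorem cases_con [Nonempty Y] {F : Set (X → X)} {G : Set (Y → Y)} (θ : Setoid (Y × X))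
    (hθ : ∀ φ ∈ cops F G, ∀ z w, θ.r z w → θ.r (φ z) (φ w)) :
    (∃ r : Setoid X, (∀ f ∈ F, ∀ x y, r.r x y → r.r (f x) (f y)) ∧ θ = lowC r) ∨
    ∃ s : Setoid Y, (∀ g ∈ G, ∀ x y, s.r x y → s.r (g x) (g y)) ∧ θ = upC s := by
  classical
  obtain ⟨y0⟩ := (inferInstance : Nonempty Y)
  by_cases hc : ∀ z w, θ.r z w → z.1 = w.1
  · left
    have hfib : ∀ y y' x x', θ.r (y, x) (y, x') → θ.r (y', x) (y', x') := fun y y' x x' h =>
      hθ (fun z => (y', z.2)) (Or.inr (Or.inr (Or.inl ⟨y', rfl⟩))) _ _ h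
    refine ⟨⟨fun x x' => θ.r (y0, x) (y0, x'), fun _ => θ.refl _, fun h => θ.symm h,
      fun h h' => θ.trans h h'⟩, ?_, ?_⟩
    · intro f hf x y h
      exact hθ (fun z => (z.1, f z.2)) (Or.inl ⟨f, hf, rfl⟩) _ _ h
    · apply Setoid.ext
      rintro ⟨y, x⟩ ⟨y', x'⟩
      constructor
      · intro h
        have h1 : y = y' := hc _ _ h
        subst h1
        exact ⟨rfl, hfib y y0 x x' h⟩
      · rintro ⟨h1, h2⟩
        have h1' : y = y' := h1
        subst h1'
        exact hfib y0 y x x' h2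
  · right
    push Not at hc
    obtain ⟨z, w, hzw, hne⟩ := hc
    have hfull : ∀ y u v, θ.r (y, u) (y, v) := by
      intro y u v
      have h1 := hθ (fun t => if t.1 = z.1 then (y, u) else (y, v))
        (Or.inr (Or.inr (Or.inr ⟨fun t => t = z.1, y, u, v, fun t ht => if_pos ht,
          fun t ht => if_neg ht⟩))) _ _ hzw
      have e1 : (if z.1 = z.1 then ((y, u) : Y × X) else (y, v)) = (y, u) := if_pos rfl
      have e2 : (if w.1 = z.1 then ((y, u) : Y × X) else (y, v)) = (y, v) :=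
        if_neg fun h => hne h.symm
      change θ.r (if z.1 = z.1 then ((y, u) : Y × X) else (y, v))
        (if w.1 = z.1 then ((y, u) : Y × X) else (y, v)) at h1
      rw [e1, e2] at h1
      exact h1
    have hx : Nonempty X := ⟨z.2⟩
    obtain ⟨x0⟩ := hx
    have hiff : ∀ y x y' x', θ.r (y, x) (y', x') ↔ θ.r (y, x0) (y', x0) := by
      intro y x y' x'
      constructor
      · intro h
        exact θ.trans (hfull y x0 x) (θ.trans h (hfull y' x' x0))
      · intro h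
        exact θ.trans (hfull y x x0) (θ.trans h (hfull y' x0 x'))
    refine ⟨⟨fun y y' => θ.r (y, x0) (y', x0), fun _ => θ.refl _, fun h => θ.symm h,
      fun h h' => θ.trans h h'⟩, ?_, ?_⟩
    · intro g hg y y' h
      exact hθ (fun z => (g z.1, z.2)) (Or.inr (Or.inl ⟨g, hg, rfl⟩)) _ _ h
    · apply Setoid.ext
      rintro ⟨y, x⟩ ⟨y', x'⟩
      exact hiff y x y' x'

end

/-- McKenzie: ordinal sums of representable lattices are representable. -/
theorem rep_cut {L : Type} [PartialOrder L] (c : L) (hc : ∀ x, x ≤ c ∨ c ≤ x)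
    (h1 : Representable (Set.Iic c)) (h2 : Representable (Set.Ici c)) : Representable L := by
  classical
  obtain ⟨X, hX, hX', F, ⟨e1⟩⟩ := rep_to_unary h1
  obtain ⟨Y, hY, hY', G, ⟨e2⟩⟩ := rep_to_unary h2
  obtain ⟨x0⟩ := hX'
  obtain ⟨y0⟩ := hY'
  have : Nonempty Y := ⟨y0⟩
  have : Nonempty X := ⟨x0⟩
  -- top of the lower part, bottom of the upper part
  let cl : Set.Iic c := ⟨c, le_rfl⟩
  let cu : Set.Ici c := ⟨c, le_rfl⟩
  have htop : ∀ x y, (e1 cl).1.r x y := by
    have h : (⟨⊤, fun _ _ _ _ _ => trivial⟩ :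
        {r : Setoid X // ∀ f ∈ F, ∀ x y : X, r.r x y → r.r (f x) (f y)}) ≤ e1 cl := by
      rw [← e1.apply_symm_apply ⟨⊤, fun _ _ _ _ _ => trivial⟩, e1.le_iff_le]
      exact (e1.symm _).2
    intro x y
    exact h (show (⊤ : Setoid X).r x y from trivial)
  have hbot : ∀ x y, (e2 cu).1.r x y → x = y := by
    have h : e2 cu ≤ (⟨⊥, fun f _ x y h => congrArg f h⟩ :
        {r : Setoid Y // ∀ f ∈ G, ∀ x y : Y, r.r x y → r.r (f x) (f y)}) := by
      rw [← e2.apply_symm_apply ⟨⊥, fun f _ x y h => congrArg f h⟩, e2.le_iff_le]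
      exact (e2.symm _).2
    intro x y hxy
    exact h hxy
  let Φ : L → {r : Setoid (Y × X) // ∀ φ ∈ cops F G, ∀ z w, r.r z w → r.r (φ z) (φ w)} :=
    fun x => if h : x ≤ c then ⟨lowC (e1 ⟨x, h⟩).1, lowC_compat (e1 ⟨x, h⟩).2⟩
      else ⟨upC (e2 ⟨x, (hc x).resolve_left h⟩).1,
        upC_compat (e2 ⟨x, (hc x).resolve_left h⟩).2⟩
  have hΦ1 : ∀ x (h : x ≤ c), Φ x = ⟨lowC (e1 ⟨x, h⟩).1, lowC_compat (e1 ⟨x, h⟩).2⟩ :=
    fun x h => dif_pos h
  have hΦ2 : ∀ x (h : c ≤ x), Φ x = ⟨upC (e2 ⟨x, h⟩).1, upC_compat (e2 ⟨x, h⟩).2⟩ := by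
    intro x h
    by_cases hx : x ≤ c
    · have hxc : x = c := le_antisymm hx h
      subst hxc
      rw [hΦ1 x le_rfl]
      apply Subtype.ext
      apply Setoid.ext
      rintro ⟨y, x⟩ ⟨y', x'⟩
      constructor
      · rintro ⟨h3, _⟩
        have h3' : y = y' := h3
        subst h3'
        exact (e2 cu).1.refl _
      · intro h3
        exact ⟨hbot _ _ h3, htop _ _⟩
    · exact dif_neg hx
  have hle : ∀ x y, Φ x ≤ Φ y ↔ x ≤ y := by
    intro x y
    by_cases hx : x ≤ c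
    · by_cases hy : y ≤ c
      · rw [hΦ1 x hx, hΦ1 y hy]
        constructor
        · intro h
          have h3 : e1 ⟨x, hx⟩ ≤ e1 ⟨y, hy⟩ := by
            intro a b hab
            exact (h (show (lowC (Y := Y) (e1 ⟨x, hx⟩).1).r (y0, a) (y0, b) from ⟨rfl, hab⟩)).2
          exact e1.le_iff_le.1 h3
        · intro h z w hzw
          have h3 : e1 ⟨x, hx⟩ ≤ e1 ⟨y, hy⟩ := e1.le_iff_le.2 h
          exact ⟨hzw.1, h3 hzw.2⟩
      · have hy' := (hc y).resolve_left hy
        rw [hΦ1 x hx, hΦ2 y hy']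
        constructor
        · intro _
          exact hx.trans hy'
        · intro _ z w hzw
          have h3 : z.1 = w.1 := hzw.1
          show (e2 ⟨y, hy'⟩).1.r z.1 w.1
          rw [h3]
    · have hx' := (hc x).resolve_left hx
      by_cases hy : c ≤ y
      · rw [hΦ2 x hx', hΦ2 y hy]
        constructor
        · intro h
          have h3 : e2 ⟨x, hx'⟩ ≤ e2 ⟨y, hy⟩ := by
            intro a b hab
            exact h (show (upC (X := X) (e2 ⟨x, hx'⟩).1).r (a, x0) (b, x0) from hab)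
          exact e2.le_iff_le.1 h3
        · intro h z w hzw
          have h3 : e2 ⟨x, hx'⟩ ≤ e2 ⟨y, hy⟩ := e2.le_iff_le.2 h
          exact h3 hzw
      · have hy' := (hc y).resolve_right hy
        rw [hΦ2 x hx', hΦ1 y hy']
        constructor
        · intro h
          exfalso
          apply hx
          have h3 : e2 ⟨x, hx'⟩ ≤ e2 cu := by
            intro a b hab
            have h4 : a = b := (h (show (upC (X := X) (e2 ⟨x, hx'⟩).1).r (a, x0) (b, x0)
              from hab)).1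
            rw [h4]
          exact e2.le_iff_le.1 h3
        · intro h
          exact absurd (h.trans hy') hx
  have hsurj : Function.Surjective Φ := by
    rintro ⟨θ, hθ⟩
    rcases cases_con θ hθ with ⟨r, hr, rfl⟩ | ⟨s, hs, rfl⟩
    · refine ⟨(e1.symm ⟨r, hr⟩ : Set.Iic c), ?_⟩
      rw [hΦ1 _ (e1.symm ⟨r, hr⟩).2]
      apply Subtype.ext
      show lowC (e1 (e1.symm ⟨r, hr⟩)).1 = lowC r
      rw [e1.apply_symm_apply]
    · refine ⟨(e2.symm ⟨s, hs⟩ : Set.Ici c), ?_⟩
      rw [hΦ2 _ (e2.symm ⟨s, hs⟩).2]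
      apply Subtype.ext
      show upC (e2 (e2.symm ⟨s, hs⟩)).1 = upC s
      rw [e2.apply_symm_apply]
  have hinj : Function.Injective Φ := fun x y h =>
    le_antisymm ((hle x y).1 h.le) ((hle y x).1 h.ge)
  exact rep_unary (Y × X) (cops F G) ⟨Equiv.ofBijective Φ ⟨hinj, hsurj⟩, hle _ _⟩

end Pool.Agent.Helper71.SL
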