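import Pool.Agent.Helper33.WL.Rep

/-!
# The dual of a representable lattice is representable (Kurzweil, Netter)

Let `F` be a set of maps `X → X`, let `S` be a finite nonabelian simple group, `G = X → S`, `D` the
subgroup of the constant functions. On `G ⧸ D` take the left multiplications by the elements of `G`
and the maps `s D ↦ (s ∘ f) D`, `f ∈ F`. The congruences are the subgroups `H ≥ D` closed under
`s ↦ s ∘ f`, and the subgroups `H ≥ D` are the groups of the functions which are constant on the
blocks of a partition of `X`.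
-/

set_option autoImplicit false

namespace Pool.Agent.Helper71.SL

open Pool.Agent.H33WL

/-- unary operations are enough -/
theorem rep_to_unary {L : Type} [LE L] (h : Representable L) :
    ∃ (X : Type) (_ : Finite X) (_ : Nonempty X) (F : Set (X → X)),
      Nonempty (L ≃o {r : Setoid X // ∀ f ∈ F, ∀ x y : X, r.r x y → r.r (f x) (f y)}) := by
  obtain ⟨A, hA, hA', F, ⟨e⟩⟩ := h
  refine ⟨A, hA, hA', {f | ∃ g ∈ F, ∃ (v : Fin g.1 → A) (i : Fin g.1),
    f = fun t => g.2 (Function.update v i t)}, ⟨e.trans ?_⟩⟩
  have hiff : ∀ r : Setoid A, (∀ g ∈ F, ∀ x y : Fin g.1 → A,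
      (∀ i, r.r (x i) (y i)) → r.r (g.2 x) (g.2 y)) ↔
      ∀ f ∈ ({f | ∃ g ∈ F, ∃ (v : Fin g.1 → A) (i : Fin g.1),
        f = fun t => g.2 (Function.update v i t)} : Set (A → A)),
        ∀ x y : A, r.r x y → r.r (f x) (f y) := by
    intro r
    constructor
    · rintro h f ⟨g, hg, v, i, rfl⟩ x y hxy
      refine h g hg _ _ ?_
      intro j
      by_cases hj : j = i
      · subst hj; simpa using hxy
      · simp only [Function.update_of_ne hj]
        exact r.refl _
    · rintro h ⟨k, g⟩ hg x y hxy
      simp only at x y hxy ⊢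
      -- change the coordinates one by one
      have key : ∀ T : Finset (Fin k), r.r (g x) (g fun i => if i ∈ T then y i else x i) := by
        intro T
        induction T using Finset.induction_on with
        | empty => simp
        | insert a T ha ih =>
          refine r.trans ih ?_
          have h1 := h _ ⟨⟨k, g⟩, hg, fun i => if i ∈ T then y i else x i, a, rfl⟩ _ _ (hxy a)
          simp only at h1
          have e1 : Function.update (fun i => if i ∈ T then y i else x i) a (x a) =
              fun i => if i ∈ T then y i else x i := by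
            funext i
            by_cases hi : i = a
            · subst hi; simp [ha]
            · simp [Function.update_of_ne hi]
          have e2 : Function.update (fun i => if i ∈ T then y i else x i) a (y a) =
              fun i => if i ∈ insert a T then y i else x i := by
            funext i
            by_cases hi : i = a
            · subst hi; simp
            · simp [Function.update_of_ne hi, Finset.mem_insert, hi]
          rw [e1, e2] at h1
          exact h1
      have h2 := key Finset.univ
      simpa using h2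
  exact
    { toEquiv := Equiv.subtypeEquivRight hiff
      map_rel_iff' := Iff.rfl }

section

variable {X S : Type} [Group S]

/-- the group of the functions constant on the blocks of a setoid -/
def conOn (r : X → X → Prop) : Subgroup (X → S) where
  carrier := {s | ∀ x y, r x y → s x = s y}
  one_mem' := fun _ _ _ => rfl
  mul_mem' := by
    intro a b ha hb x y h
    show a x * b x = a y * b y
    rw [ha x y h, hb x y h]
  inv_mem' := by
    intro a ha x y h
    show (a x)⁻¹ = (a y)⁻¹
    rw [ha x y h]

theorem mem_conOn {r : X → X → Prop} {s : X → S} :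
    s ∈ conOn r ↔ ∀ x y, r x y → s x = s y := Iff.rfl

/-- the constant functions -/
def diag (X S : Type) [Group S] : Subgroup (X → S) := conOn fun _ _ => True

theorem diag_le (r : X → X → Prop) : diag X S ≤ conOn r := fun _ hs x y _ => hs x y trivial

/-- values at `x` of the elements of `H` which are trivial on `J` -/
def valAt (H : Subgroup (X → S)) (x : X) (J : Finset X) : Subgroup S where
  carrier := {s | ∃ h ∈ H, h x = s ∧ ∀ y ∈ J, h y = 1}
  one_mem' := ⟨1, H.one_mem, rfl, fun _ _ => rfl⟩
  mul_mem' := by
    rintro a b ⟨h, hh, h1, h2⟩ ⟨h', hh', h1', h2'⟩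
    refine ⟨h * h', H.mul_mem hh hh', ?_, ?_⟩
    · show h x * h' x = a * b
      rw [h1, h1']
    · intro y hy
      show h y * h' y = 1
      rw [h2 y hy, h2' y hy, one_mul]
  inv_mem' := by
    rintro a ⟨h, hh, h1, h2⟩
    refine ⟨h⁻¹, H.inv_mem hh, ?_, ?_⟩
    · show (h x)⁻¹ = a⁻¹
      rw [h1]
    · intro y hy
      show (h y)⁻¹ = 1
      rw [h2 y hy, inv_one]

theorem valAt_normal {H : Subgroup (X → S)} (hH : diag X S ≤ H) (x : X) (J : Finset X) :
    (valAt H x J).Normal := by
  constructor
  rintro a ⟨h, hh, h1, h2⟩ g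
  have hg : (fun _ => g : X → S) ∈ H := hH fun _ _ _ => rfl
  refine ⟨(fun _ => g) * h * (fun _ => g)⁻¹, H.mul_mem (H.mul_mem hg hh) (H.inv_mem hg), ?_, ?_⟩
  · show g * h x * g⁻¹ = g * a * g⁻¹
    rw [h1]
  · intro y hy
    show g * h y * g⁻¹ = 1
    rw [h2 y hy, mul_one, mul_inv_cancel]

theorem valAt_top [IsSimpleGroup S] (hS : ∃ a b : S, a * b ≠ b * a) {H : Subgroup (X → S)}
    (hH : diag X S ≤ H) (x : X) (J : Finset X) (hJ : ∀ y ∈ J, ∃ h ∈ H, h x ≠ h y) :
    valAt H x J = ⊤ := by
  classical
  induction J using Finset.induction_on with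
  | empty =>
    rw [eq_top_iff]
    intro s _
    exact ⟨fun _ => s, hH fun _ _ _ => rfl, rfl, by simp⟩
  | insert y J hy ih =>
    have h1 : valAt H x J = ⊤ := ih fun z hz => hJ z (Finset.mem_insert_of_mem hz)
    have h2 : valAt H x {y} = ⊤ := by
      refine ((valAt_normal hH x {y}).eq_bot_or_eq_top).resolve_left ?_
      intro h3
      obtain ⟨h, hh, h4⟩ := hJ y (Finset.mem_insert_self y J)
      have hg : (fun _ => (h y)⁻¹ : X → S) ∈ H := hH fun _ _ _ => rfl
      have h5 : h x * (h y)⁻¹ ∈ valAt H x {y} := by
        refine ⟨h * fun _ => (h y)⁻¹, H.mul_mem hh hg, rfl, ?_⟩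
        intro z hz
        rw [Finset.mem_singleton] at hz
        subst hz
        show h z * (h z)⁻¹ = 1
        exact mul_inv_cancel _
      rw [h3, Subgroup.mem_bot, mul_inv_eq_one] at h5
      exact h4 h5
    refine ((valAt_normal hH x (insert y J)).eq_bot_or_eq_top).resolve_left ?_
    intro h3
    obtain ⟨a, b, hab⟩ := hS
    have ha : a ∈ valAt H x {y} := by rw [h2]; exact Subgroup.mem_top a
    have hb : b ∈ valAt H x J := by rw [h1]; exact Subgroup.mem_top b
    obtain ⟨u, hu, hu1, hu2⟩ := ha
    obtain ⟨v, hv, hv1, hv2⟩ := hb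
    have h5 : a * b * a⁻¹ * b⁻¹ ∈ valAt H x (insert y J) := by
      refine ⟨u * v * u⁻¹ * v⁻¹, H.mul_mem (H.mul_mem (H.mul_mem hu hv) (H.inv_mem hu))
        (H.inv_mem hv), ?_, ?_⟩
      · show u x * v x * (u x)⁻¹ * (v x)⁻¹ = _
        rw [hu1, hv1]
      · intro z hz
        show u z * v z * (u z)⁻¹ * (v z)⁻¹ = 1
        rcases Finset.mem_insert.1 hz with rfl | hz
        · rw [hu2 z (Finset.mem_singleton_self z)]
          simp
        · rw [hv2 z hz]
          simp
    rw [h3, Subgroup.mem_bot] at h5
    apply hab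
    have h6 : a * b = b * a := by
      have : a * b * a⁻¹ * b⁻¹ = 1 := h5
      calc a * b = (a * b * a⁻¹ * b⁻¹) * (b * a) := by group
        _ = b * a := by rw [this, one_mul]
    exact h6

/-- A subgroup of `X → S` containing the constants consists of all functions constant on the blocks
of a partition. -/
theorem mem_of_const [Finite X] [IsSimpleGroup S] (hS : ∃ a b : S, a * b ≠ b * a)
    {H : Subgroup (X → S)} (hH : diag X S ≤ H) (g : X → S)
    (hg : ∀ x y, (∀ h ∈ H, h x = h y) → g x = g y) : g ∈ H := by
  classical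
  have : Fintype X := Fintype.ofFinite X
  have key : ∀ T : Finset X, ∃ h ∈ H, ∀ y ∈ T, h y = g y := by
    intro T
    induction T using Finset.induction_on with
    | empty => exact ⟨1, H.one_mem, by simp⟩
    | insert x T hx ih =>
      obtain ⟨h, hh, h1⟩ := ih
      by_cases hc : ∃ y ∈ T, ∀ h ∈ H, h x = h y
      · obtain ⟨y, hy, hxy⟩ := hc
        refine ⟨h, hh, ?_⟩
        intro z hz
        rcases Finset.mem_insert.1 hz with rfl | hz
        · rw [hxy h hh, h1 y hy, hg z y hxy]
        · exact h1 z hz
      · have hJ : ∀ y ∈ T, ∃ h ∈ H, h x ≠ h y := by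
          intro y hy
          by_contra hcon
          apply hc
          refine ⟨y, hy, ?_⟩
          intro k hk
          by_contra hne
          exact hcon ⟨k, hk, hne⟩
        have h2 := valAt_top hS hH x T hJ
        have h3 : (h x)⁻¹ * g x ∈ valAt H x T := by rw [h2]; exact Subgroup.mem_top _
        obtain ⟨k, hk, hk1, hk2⟩ := h3
        refine ⟨h * k, H.mul_mem hh hk, ?_⟩
        intro z hz
        show h z * k z = g z
        rcases Finset.mem_insert.1 hz with rfl | hz
        · rw [hk1, mul_inv_cancel_left]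
        · rw [hk2 z hz, mul_one, h1 z hz]
  obtain ⟨h, hh, h1⟩ := key Finset.univ
  have : h = g := funext fun y => h1 y (Finset.mem_univ y)
  rw [← this]
  exact hh

/-- the map induced on the quotient by `s ↦ s ∘ f` -/
def pull (X S : Type) [Group S] (f : X → X) : (X → S) ⧸ diag X S → (X → S) ⧸ diag X S :=
  Quotient.map' (fun s => s ∘ f) (by
    intro s t h
    rw [QuotientGroup.leftRel_apply] at h ⊢
    intro x y _
    exact h (f x) (f y) trivial)

theorem pull_mk (f : X → X) (s : X → S) :
    pull X S f (s : (X → S) ⧸ diag X S) = ((s ∘ f : X → S) : (X → S) ⧸ diag X S) := rfl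

/-- the congruence of a subgroup -/
def cg (H : Subgroup (X → S)) (hH : diag X S ≤ H) : Setoid ((X → S) ⧸ diag X S) :=
  Setoid.ker (Subgroup.quotientMapOfLE hH)

theorem cg_iff (H : Subgroup (X → S)) (hH : diag X S ≤ H) (s t : X → S) :
    (cg H hH).r (s : (X → S) ⧸ diag X S) (t : (X → S) ⧸ diag X S) ↔ s⁻¹ * t ∈ H := by
  show ((s : (X → S) ⧸ H) = (t : (X → S) ⧸ H)) ↔ _
  exact QuotientGroup.eq

/-- the operations -/
def dops (X S : Type) [Group S] (F : Set (X → X)) :
    Set ((X → S) ⧸ diag X S → (X → S) ⧸ diag X S) :=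
  {φ | (∃ g : X → S, φ = fun y => g • y) ∨ ∃ f ∈ F, φ = pull X S f}

theorem cg_compat {F : Set (X → X)} {H : Subgroup (X → S)} (hH : diag X S ≤ H)
    (hF : ∀ f ∈ F, ∀ s ∈ H, s ∘ f ∈ H) :
    ∀ φ ∈ dops X S F, ∀ x y, (cg H hH).r x y → (cg H hH).r (φ x) (φ y) := by
  rintro φ hφ x y h
  induction x using QuotientGroup.induction_on with
  | H x =>
    induction y using QuotientGroup.induction_on with
    | H y =>
      rw [cg_iff] at h
      rcases hφ with ⟨g, rfl⟩ | ⟨f, hf, rfl⟩
      · show (cg H hH).r ((g * x : X → S) : (X → S) ⧸ diag X S) ((g * y : X → S) : (X → S) ⧸ diag X S)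
        rw [cg_iff, mul_inv_rev, mul_assoc, inv_mul_cancel_left]
        exact h
      · rw [pull_mk, pull_mk, cg_iff]
        exact hF f hf _ h

end

theorem noncomm_A5 : ∃ a b : alternatingGroup (Fin 5), a * b ≠ b * a := by
  refine ⟨⟨Equiv.swap 0 1 * Equiv.swap 1 2, ?_⟩, ⟨Equiv.swap 0 1 * Equiv.swap 1 3, ?_⟩, ?_⟩
  · rw [Equiv.Perm.mem_alternatingGroup]
    decide
  · rw [Equiv.Perm.mem_alternatingGroup]
    decide
  · intro h
    have h1 := congrArg (fun s : alternatingGroup (Fin 5) => (s : Equiv.Perm (Fin 5)) 0) h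
    revert h1
    decide

theorem simple_A5 : IsSimpleGroup (alternatingGroup (Fin 5)) :=
  alternatingGroup.isSimpleGroup (by simp)

/-- Kurzweil and Netter: the dual of a representable lattice is representable. -/
theorem rep_dual {L : Type} [LE L] (h : Representable L) : Representable Lᵒᵈ := by
  classical
  obtain ⟨X, hX, hX', F, ⟨e⟩⟩ := rep_to_unary h
  let S := alternatingGroup (Fin 5)
  have hsimple : IsSimpleGroup S := simple_A5
  have hS : ∃ a b : S, a * b ≠ b * a := noncomm_A5
  obtain ⟨a0, ha0⟩ : ∃ a : S, a ≠ 1 := by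
    obtain ⟨a, b, hab⟩ := hS
    refine ⟨a, ?_⟩
    rintro rfl
    exact hab (by rw [one_mul, mul_one])
  have : Finite S := inferInstance
  let c : {r : Setoid X // ∀ f ∈ F, ∀ x y : X, r.r x y → r.r (f x) (f y)} →
      {r : Setoid ((X → S) ⧸ diag X S) // ∀ φ ∈ dops X S F, ∀ x y, r.r x y → r.r (φ x) (φ y)} :=
    fun π => ⟨cg (conOn π.1.r) (diag_le π.1.r), cg_compat _ fun f hf s hs x y hxy =>
      hs _ _ (π.2 f hf x y hxy)⟩
  have hc : ∀ π ρ, c π ≤ c ρ ↔ ρ ≤ π := by
    intro π ρ
    constructor
    · intro hle x y hxy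
      by_contra hne
      let s : X → S := fun z => if π.1.r x z then a0 else 1
      have hs : s ∈ conOn π.1.r := by
        intro u v huv
        show (if π.1.r x u then a0 else 1) = if π.1.r x v then a0 else 1
        have : π.1.r x u ↔ π.1.r x v :=
          ⟨fun h => π.1.trans h huv, fun h => π.1.trans h (π.1.symm huv)⟩
        by_cases h1 : π.1.r x u
        · rw [if_pos h1, if_pos (this.1 h1)]
        · rw [if_neg h1, if_neg fun h2 => h1 (this.2 h2)]
      have h1 : (cg (conOn π.1.r) (diag_le π.1.r)).r ((1 : X → S) : (X → S) ⧸ diag X S)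
          (s : (X → S) ⧸ diag X S) := by
        rw [cg_iff, inv_one, one_mul]
        exact hs
      have h2 := hle h1
      have h3 : (cg (conOn ρ.1.r) (diag_le ρ.1.r)).r ((1 : X → S) : (X → S) ⧸ diag X S)
          (s : (X → S) ⧸ diag X S) := h2
      rw [cg_iff, inv_one, one_mul] at h3
      have h4 : s x = s y := h3 x y hxy
      have h5 : s x = a0 := if_pos (π.1.refl x)
      have h6 : s y = 1 := if_neg hne
      rw [h5, h6] at h4
      exact ha0 h4
    · intro hle x y hxy
      induction x using QuotientGroup.induction_on with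
      | H x =>
        induction y using QuotientGroup.induction_on with
        | H y =>
          have h1 : (cg (conOn π.1.r) (diag_le π.1.r)).r (x : (X → S) ⧸ diag X S)
            (y : (X → S) ⧸ diag X S) := hxy
          show (cg (conOn ρ.1.r) (diag_le ρ.1.r)).r (x : (X → S) ⧸ diag X S)
            (y : (X → S) ⧸ diag X S)
          rw [cg_iff] at h1 ⊢
          exact fun u v huv => h1 u v (hle huv)
  have hsurj : Function.Surjective c := by
    rintro ⟨θ, hθ⟩
    have hmul : ∀ (g : X → S) x y, θ.r x y → θ.r (g • x) (g • y) := fun g x y h =>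
      hθ _ (Or.inl ⟨g, rfl⟩) x y h
    let H : Subgroup (X → S) :=
      { carrier := {g | θ.r ((1 : X → S) : (X → S) ⧸ diag X S) (g : (X → S) ⧸ diag X S)}
        one_mem' := θ.refl _
        mul_mem' := by
          intro a b ha hb
          refine θ.trans ha ?_
          have h := hmul a _ _ hb
          rw [MulAction.Quotient.smul_coe, MulAction.Quotient.smul_coe, smul_eq_mul, smul_eq_mul,
            mul_one] at h
          exact h
        inv_mem' := by
          intro a ha
          refine θ.symm ?_
          have h := hmul a⁻¹ _ _ ha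
          rw [MulAction.Quotient.smul_coe, MulAction.Quotient.smul_coe, smul_eq_mul, smul_eq_mul,
            mul_one, inv_mul_cancel] at h
          exact h }
    have hH : diag X S ≤ H := by
      intro g hg
      have h1 : ((1 : X → S) : (X → S) ⧸ diag X S) = (g : (X → S) ⧸ diag X S) := by
        rw [QuotientGroup.eq, inv_one, one_mul]
        exact hg
      show θ.r ((1 : X → S) : (X → S) ⧸ diag X S) (g : (X → S) ⧸ diag X S)
      rw [← h1]
    have hHmem : ∀ s t : X → S, s⁻¹ * t ∈ H ↔
        θ.r (s : (X → S) ⧸ diag X S) (t : (X → S) ⧸ diag X S) := by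
      intro s t
      show θ.r ((1 : X → S) : (X → S) ⧸ diag X S) ((s⁻¹ * t : X → S) : (X → S) ⧸ diag X S) ↔ _
      constructor
      · intro h
        have h2 := hmul s _ _ h
        simp only [MulAction.Quotient.smul_coe, smul_eq_mul, mul_one, mul_inv_cancel_left] at h2
        exact h2
      · intro h
        have h2 := hmul s⁻¹ _ _ h
        simp only [MulAction.Quotient.smul_coe, smul_eq_mul, inv_mul_cancel] at h2
        exact h2
    let π : Setoid X :=
      { r := fun x y => ∀ h ∈ H, h x = h y
        iseqv := ⟨fun _ _ _ => rfl, fun h k hk => (h k hk).symm,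
          fun h h' k hk => (h k hk).trans (h' k hk)⟩ }
    have hπ : ∀ f ∈ F, ∀ x y : X, π.r x y → π.r (f x) (f y) := by
      intro f hf x y hxy h hh
      have h1 := hθ _ (Or.inr ⟨f, hf, rfl⟩) _ _ (show θ.r ((1 : X → S) : (X → S) ⧸ diag X S)
        (h : (X → S) ⧸ diag X S) from hh)
      rw [pull_mk, pull_mk] at h1
      exact hxy (h ∘ f) h1
    refine ⟨⟨π, hπ⟩, Subtype.ext (Setoid.ext ?_)⟩
    intro x y
    induction x using QuotientGroup.induction_on with
    | H x =>
      induction y using QuotientGroup.induction_on with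
      | H y =>
        show (cg (conOn π.r) (diag_le π.r)).r (x : (X → S) ⧸ diag X S)
            (y : (X → S) ⧸ diag X S) ↔ θ.r (x : (X → S) ⧸ diag X S) (y : (X → S) ⧸ diag X S)
        rw [cg_iff, ← hHmem]
        constructor
        · intro h
          exact mem_of_const hS hH _ h
        · intro h u v huv
          exact huv _ h
  have hinj : Function.Injective c := by
    intro π ρ h
    exact le_antisymm ((hc ρ π).1 h.ge) ((hc π ρ).1 h.le)
  let E : Lᵒᵈ ≃o {r : Setoid ((X → S) ⧸ diag X S) //
      ∀ φ ∈ dops X S F, ∀ x y, r.r x y → r.r (φ x) (φ y)} :=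
    { toEquiv := (OrderDual.ofDual.trans e.toEquiv).trans (Equiv.ofBijective c ⟨hinj, hsurj⟩)
      map_rel_iff' := by
        intro x y
        show c (e (OrderDual.ofDual x)) ≤ c (e (OrderDual.ofDual y)) ↔ x ≤ y
        rw [hc, e.le_iff_le]
        rfl }
  exact rep_unary _ (dops X S F) E

end Pool.Agent.Helper71.SL
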