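import Pool.Agent.Helper71.SL.RepA
import Pool.Agent.Helper71.SL.RepB
import Pool.Agent.Helper71.SL.RepQ
import Pool.Agent.Helper33.WL.Seven

/-!
# Representations of lattices with seven elements, by duality, and `L_7`
-/

set_option autoImplicit false

namespace Pool.Agent.Helper71.SL

open Pool.Agent.H33WL

theorem r7_1101001011 : Representable (FinB (pat 7 [true, true, false, true, false, false, true, false, true, true])) :=
  rep_of_dtab (b := pat 7 [true, true, true, true, false, true, false, true, false, false])
    ![6, 5, 3, 2, 1, 4, 0] (by decide +kernel) (by decide +kernel) r7_1111010100

theorem r7_1111110000 : Representable (FinB (pat 7 [true, true, true, true, true, true, false, false, false, false])) :=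
  rep_of_dtab (b := pat 7 [false, true, false, true, true, false, true, false, true, true])
    ![6, 4, 3, 2, 5, 1, 0] (by decide +kernel) (by decide +kernel) r7_0101101011

theorem r7_1010010100 : Representable (FinB (pat 7 [true, false, true, false, false, true, false, true, false, false])) :=
  rep_of_dtab (b := pat 7 [true, true, true, false, true, false, false, false, false, false])
    ![6, 4, 2, 1, 3, 5, 0] (by decide +kernel) (by decide +kernel) r7_1110100000

theorem r7_1100000001 : Representable (FinB (pat 7 [true, true, false, false, false, false, false, false, false, true])) :=
  rep_of_dtab (b := pat 7 [true, false, false, false, false, false, false, false, true, true])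
    ![6, 5, 4, 3, 2, 1, 0] (by decide +kernel) (by decide +kernel) r7_1000000011

theorem r7_1110110000 : Representable (FinB (pat 7 [true, true, true, false, true, true, false, false, false, false])) :=
  rep_of_dtab (b := pat 7 [false, true, true, false, true, true, false, true, false, false])
    ![6, 4, 3, 2, 1, 5, 0] (by decide +kernel) (by decide +kernel) r7_0110110100

theorem r7_1100000000 : Representable (FinB (pat 7 [true, true, false, false, false, false, false, false, false, false])) :=
  rep_of_dtab (b := pat 7 [false, true, false, false, true, false, false, false, false, false])
    ![6, 3, 2, 1, 5, 4, 0] (by decide +kernel) (by decide +kernel) r7_0100100000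

theorem r7_1110000000 : Representable (FinB (pat 7 [true, true, true, false, false, false, false, false, false, false])) :=
  rep_of_dtab (b := pat 7 [false, false, true, false, false, true, false, true, false, false])
    ![6, 4, 3, 2, 1, 5, 0] (by decide +kernel) (by decide +kernel) r7_0010010100

theorem r7_1010000100 : Representable (FinB (pat 7 [true, false, true, false, false, false, false, true, false, false])) :=
  rep_of_tab (b := rel7) ![0, 1, 3, 5, 2, 4, 6] (by decide +kernel) (by decide +kernel) rep_seven

end Pool.Agent.Helper71.SL
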