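import Pool.Agent.Helper71.SL.ClsT
import Pool.Agent.Helper71.SL.RepS
import Pool.Agent.Helper71.SL.RepN
import Pool.Agent.Helper71.SL.RepD

/-!
# Every lattice with at most seven elements is the congruence lattice of a finite algebra
-/

set_option autoImplicit false

namespace Pool.Agent.Helper71.SL

open Pool.Agent.H33WL

theorem reps4_ok : ∀ r ∈ reps4, Representable (FinB (pat 4 r)) := by
  unfold reps4
  refine List.forall_mem_cons.2 ⟨r4_0, ?_⟩
  refine List.forall_mem_cons.2 ⟨r4_1, ?_⟩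
  intro r hr
  exact absurd hr List.not_mem_nil

theorem reps5_ok : ∀ r ∈ reps5, Representable (FinB (pat 5 r)) := by
  unfold reps5
  refine List.forall_mem_cons.2 ⟨r5_000, ?_⟩
  refine List.forall_mem_cons.2 ⟨r5_011, ?_⟩
  refine List.forall_mem_cons.2 ⟨r5_100, ?_⟩
  refine List.forall_mem_cons.2 ⟨r5_110, ?_⟩
  refine List.forall_mem_cons.2 ⟨r5_111, ?_⟩
  intro r hr
  exact absurd hr List.not_mem_nil

theorem reps6_ok : ∀ r ∈ reps6, Representable (FinB (pat 6 r)) := by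
  unfold reps6
  refine List.forall_mem_cons.2 ⟨r6_000000, ?_⟩
  refine List.forall_mem_cons.2 ⟨r6_001011, ?_⟩
  refine List.forall_mem_cons.2 ⟨r6_010100, ?_⟩
  refine List.forall_mem_cons.2 ⟨r6_011111, ?_⟩
  refine List.forall_mem_cons.2 ⟨r6_100000, ?_⟩
  refine List.forall_mem_cons.2 ⟨r6_100001, ?_⟩
  refine List.forall_mem_cons.2 ⟨r6_101001, ?_⟩
  refine List.forall_mem_cons.2 ⟨r6_101011, ?_⟩
  refine List.forall_mem_cons.2 ⟨r6_110000, ?_⟩
  refine List.forall_mem_cons.2 ⟨r6_110100, ?_⟩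
  refine List.forall_mem_cons.2 ⟨r6_111000, ?_⟩
  refine List.forall_mem_cons.2 ⟨r6_111011, ?_⟩
  refine List.forall_mem_cons.2 ⟨r6_111100, ?_⟩
  refine List.forall_mem_cons.2 ⟨r6_111110, ?_⟩
  refine List.forall_mem_cons.2 ⟨r6_111111, ?_⟩
  intro r hr
  exact absurd hr List.not_mem_nil

theorem reps7_ok : ∀ r ∈ reps7, Representable (FinB (pat 7 r)) := by
  unfold reps7
  refine List.forall_mem_cons.2 ⟨r7_0000000000, ?_⟩
  refine List.forall_mem_cons.2 ⟨r7_0001001011, ?_⟩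
  refine List.forall_mem_cons.2 ⟨r7_0010010100, ?_⟩
  refine List.forall_mem_cons.2 ⟨r7_0011011111, ?_⟩
  refine List.forall_mem_cons.2 ⟨r7_0100100000, ?_⟩
  refine List.forall_mem_cons.2 ⟨r7_0101100001, ?_⟩
  refine List.forall_mem_cons.2 ⟨r7_0101101011, ?_⟩
  refine List.forall_mem_cons.2 ⟨r7_0110110100, ?_⟩
  refine List.forall_mem_cons.2 ⟨r7_0111111110, ?_⟩
  refine List.forall_mem_cons.2 ⟨r7_0111111111, ?_⟩
  refine List.forall_mem_cons.2 ⟨r7_1000000000, ?_⟩
  refine List.forall_mem_cons.2 ⟨r7_1000000011, ?_⟩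
  refine List.forall_mem_cons.2 ⟨r7_1000000100, ?_⟩
  refine List.forall_mem_cons.2 ⟨r7_1001000011, ?_⟩
  refine List.forall_mem_cons.2 ⟨r7_1001001011, ?_⟩
  refine List.forall_mem_cons.2 ⟨r7_1001001111, ?_⟩
  refine List.forall_mem_cons.2 ⟨r7_1010000100, ?_⟩
  refine List.forall_mem_cons.2 ⟨r7_1010000110, ?_⟩
  refine List.forall_mem_cons.2 ⟨r7_1010010100, ?_⟩
  refine List.forall_mem_cons.2 ⟨r7_1010010110, ?_⟩
  refine List.forall_mem_cons.2 ⟨r7_1011000111, ?_⟩
  refine List.forall_mem_cons.2 ⟨r7_1011001111, ?_⟩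
  refine List.forall_mem_cons.2 ⟨r7_1011011111, ?_⟩
  refine List.forall_mem_cons.2 ⟨r7_1100000000, ?_⟩
  refine List.forall_mem_cons.2 ⟨r7_1100000001, ?_⟩
  refine List.forall_mem_cons.2 ⟨r7_1100100000, ?_⟩
  refine List.forall_mem_cons.2 ⟨r7_1100100001, ?_⟩
  refine List.forall_mem_cons.2 ⟨r7_1101000001, ?_⟩
  refine List.forall_mem_cons.2 ⟨r7_1101001001, ?_⟩
  refine List.forall_mem_cons.2 ⟨r7_1101001011, ?_⟩
  refine List.forall_mem_cons.2 ⟨r7_1101100001, ?_⟩
  refine List.forall_mem_cons.2 ⟨r7_1101101001, ?_⟩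
  refine List.forall_mem_cons.2 ⟨r7_1101101011, ?_⟩
  refine List.forall_mem_cons.2 ⟨r7_1110000000, ?_⟩
  refine List.forall_mem_cons.2 ⟨r7_1110010100, ?_⟩
  refine List.forall_mem_cons.2 ⟨r7_1110100000, ?_⟩
  refine List.forall_mem_cons.2 ⟨r7_1110110000, ?_⟩
  refine List.forall_mem_cons.2 ⟨r7_1110110100, ?_⟩
  refine List.forall_mem_cons.2 ⟨r7_1111000000, ?_⟩
  refine List.forall_mem_cons.2 ⟨r7_1111001011, ?_⟩
  refine List.forall_mem_cons.2 ⟨r7_1111010100, ?_⟩
  refine List.forall_mem_cons.2 ⟨r7_1111011111, ?_⟩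
  refine List.forall_mem_cons.2 ⟨r7_1111100000, ?_⟩
  refine List.forall_mem_cons.2 ⟨r7_1111100001, ?_⟩
  refine List.forall_mem_cons.2 ⟨r7_1111101001, ?_⟩
  refine List.forall_mem_cons.2 ⟨r7_1111101011, ?_⟩
  refine List.forall_mem_cons.2 ⟨r7_1111110000, ?_⟩
  refine List.forall_mem_cons.2 ⟨r7_1111110100, ?_⟩
  refine List.forall_mem_cons.2 ⟨r7_1111111000, ?_⟩
  refine List.forall_mem_cons.2 ⟨r7_1111111011, ?_⟩
  refine List.forall_mem_cons.2 ⟨r7_1111111100, ?_⟩
  refine List.forall_mem_cons.2 ⟨r7_1111111110, ?_⟩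
  refine List.forall_mem_cons.2 ⟨r7_1111111111, ?_⟩
  intro r hr
  exact absurd hr List.not_mem_nil

/-- Every lattice with at most seven elements is isomorphic to the congruence lattice of a finite
algebra. -/
theorem rep_le_seven (L : Type) [Lattice L] [Finite L] [Nonempty L] (h : Nat.card L ≤ 7) :
    Representable L := by
  have h0 : 0 < Nat.card L := Nat.card_pos
  have hsmall : ∀ k, Nat.card L = k → 0 < k → k ≤ 3 → Representable (FinB (pat k [])) →
      Representable L := by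
    intro k hk h0 h3 hr
    obtain ⟨l, hl, _, ⟨e⟩⟩ := exists_pat L k hk h0 (by omega)
    have h1 : (tri k).length = 0 := by
      interval_cases k <;> rfl
    rw [h1] at hl
    rw [List.length_eq_zero_iff.1 hl] at e
    exact rep_of_iso e hr
  obtain ⟨k, hk⟩ : ∃ k, Nat.card L = k := ⟨_, rfl⟩
  rw [hk] at h h0
  have hcase : k = 1 ∨ k = 2 ∨ k = 3 ∨ k = 4 ∨ k = 5 ∨ k = 6 ∨ k = 7 := by omega
  rcases hcase with rfl | rfl | rfl | rfl | rfl | rfl | rfl
  · exact hsmall 1 hk (by omega) (by omega) r1_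
  · exact hsmall 2 hk (by omega) (by omega) r2_
  · exact hsmall 3 hk (by omega) (by omega) r3_
  · exact rep_of_cls L 4 hk (by omega) (by omega) cls4 reps4_ok
  · exact rep_of_cls L 5 hk (by omega) (by omega) cls5 reps5_ok
  · exact rep_of_cls L 6 hk (by omega) (by omega) cls6 reps6_ok
  · exact rep_of_cls L 7 hk (by omega) (by omega) cls7 reps7_ok

end Pool.Agent.Helper71.SL
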