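import Pool.Agent.Helper71.SL.Chk2
import Pool.Agent.Helper71.SL.Dual

/-!
# Patterns of small lattices

`pat k l` is the relation on `Fin k` in which `0` is below and `k - 1` above everything, and which is
given on the other elements `1 < 2 < ... < k - 2` by the list `l` of Booleans (the upper triangle of
the matrix, row by row).
-/

set_option autoImplicit false

namespace Pool.Agent.Helper71.SL

open Pool.Agent.H33WL

/-- lookup in a list of Booleans -/
def getB : List Bool → ℕ → Bool
  | [], _ => false
  | x :: _, 0 => x
  | _ :: l, i + 1 => getB l i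

/-- position of the pair `(i, j)`, `1 ≤ i < j ≤ k - 2`, in the upper triangle -/
def pos (k i j : ℕ) : ℕ := (i - 1) * (k - 2) - (i * (i - 1)) / 2 + (j - i - 1)

/-- the relation as a function on numbers -/
def patN (k : ℕ) (l : List Bool) (i j : ℕ) : Bool :=
  cond (Nat.beq i j) true (cond (Nat.beq i 0) true (cond (Nat.beq (j + 1) k) true
    (cond (Nat.beq (i + 1) k) false (cond (Nat.blt i j) (getB l (pos k i j)) false))))

/-- the pattern -/
def pat (k : ℕ) (l : List Bool) : Fin k → Fin k → Bool := fun i j => patN k l i j

/-- An isomorphism given by a table. -/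
theorem rep_of_tab {k : ℕ} {b b' : Fin k → Fin k → Bool} (π : Fin k → Fin k)
    (hπ : Function.Injective π) (h : ∀ i j, b' (π i) (π j) = b i j)
    (hr : Representable (FinB b)) : Representable (FinB b') := by
  refine rep_of_iso (L := FinB b) ?_ hr
  exact
    { toEquiv := Equiv.ofBijective (α := Fin k) (β := Fin k) π
        ((Fintype.bijective_iff_injective_and_card π).2 ⟨hπ, rfl⟩)
      map_rel_iff' := by
        intro i j
        show b' (π i) (π j) = true ↔ b i j = true
        rw [h] }

/-- A dual isomorphism given by a table. -/
theorem rep_of_dtab {k : ℕ} {b b' : Fin k → Fin k → Bool} (π : Fin k → Fin k)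
    (hπ : Function.Injective π) (h : ∀ i j, b' (π i) (π j) = b j i)
    (hr : Representable (FinB b)) : Representable (FinB b') := by
  refine rep_of_iso (L := (FinB b)ᵒᵈ) ?_ (rep_dual hr)
  exact
    { toEquiv := OrderDual.ofDual.trans (Equiv.ofBijective (α := Fin k) (β := Fin k) π
        ((Fintype.bijective_iff_injective_and_card π).2 ⟨hπ, rfl⟩))
      map_rel_iff' := by
        intro i j
        show b' (π (OrderDual.ofDual i)) (π (OrderDual.ofDual j)) = true ↔
          b (OrderDual.ofDual j) (OrderDual.ofDual i) = true
        rw [h] }

end Pool.Agent.Helper71.SL
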